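import Pool.Agent.H307R3.PC.Max

/-!
# The subalgebra generated by `C1, C2, εf² h, εf f h, f² h`
-/

set_option autoImplicit false

namespace Pool.Agent.H307R3.PC.Core

open MvPolynomial

variable {F : Type*} [Field F]

/-- the generators -/
def gens (F : Type*) [Field F] : Set (R6 F) :=
  {C1 F, C2 F, X 5 ^ 2 * X 1, X 5 * X 2 * X 1, X 2 ^ 2 * X 1}

/-- the subalgebra -/
noncomputable def A (F : Type*) [Field F] : Subalgebra F (R6 F) := Algebra.adjoin F (gens F)

lemma C1_mem : C1 F ∈ A F := Algebra.subset_adjoin (by simp [gens])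
lemma C2_mem : C2 F ∈ A F := Algebra.subset_adjoin (by simp [gens])
lemma a_mem : X 5 ^ 2 * X 1 ∈ A F := Algebra.subset_adjoin (by simp [gens])
lemma b_mem : X 5 * X 2 * X 1 ∈ A F := Algebra.subset_adjoin (by simp [gens])
lemma c_mem : X 2 ^ 2 * X 1 ∈ A F := Algebra.subset_adjoin (by simp [gens])

lemma mono_mem (j m0 m1 : ℕ) (h : m0 + m1 = 2 * j) :
    X 1 ^ j * (X 5 ^ m0 * X 2 ^ m1) ∈ A F := by
  rcases Nat.even_or_odd' m0 with ⟨k, rfl | rfl⟩
  · obtain ⟨l, rfl⟩ : ∃ l, j = k + l := ⟨j - k, by omega⟩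
    obtain rfl : m1 = 2 * l := by omega
    have : X 1 ^ (k + l) * (X 5 ^ (2 * k) * X 2 ^ (2 * l)) =
        (X 5 ^ 2 * X 1) ^ k * (X 2 ^ 2 * X 1 : R6 F) ^ l := by
      rw [pow_add, pow_mul, pow_mul, mul_pow, mul_pow]
      ring
    rw [this]
    exact (A F).mul_mem ((A F).pow_mem a_mem _) ((A F).pow_mem c_mem _)
  · obtain ⟨l, rfl⟩ : ∃ l, j = k + 1 + l := ⟨j - k - 1, by omega⟩
    obtain rfl : m1 = 2 * l + 1 := by omega
    have : X 1 ^ (k + 1 + l) * (X 5 ^ (2 * k + 1) * X 2 ^ (2 * l + 1)) =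
        (X 5 ^ 2 * X 1) ^ k * (X 5 * X 2 * X 1) * (X 2 ^ 2 * X 1 : R6 F) ^ l := by
      rw [pow_add, pow_add, pow_add, pow_add, pow_mul, pow_mul, mul_pow, mul_pow]
      ring
    rw [this]
    exact (A F).mul_mem ((A F).mul_mem ((A F).pow_mem a_mem _) b_mem) ((A F).pow_mem c_mem _)

/-- the weight derivation on the source of `Theta` -/
lemma D1_Theta (q : MvPolynomial (Fin 4) F) :
    D F 1 (Theta F q) = Theta F (-2 * (X 0 * pderiv 0 q + X 1 * pderiv 1 q)) := by
  induction q using MvPolynomial.induction_on with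
  | C a => simp [Theta]
  | add p q hp hq =>
    rw [map_add, map_add, hp, hq, ← map_add]
    congr 1
    simp only [map_add]
    ring
  | mul_X p i hp =>
    rw [map_mul, D_mul, hp]
    have h : D F 1 (Theta F (X i)) =
        Theta F (-2 * (X 0 * pderiv 0 (X i) + X 1 * pderiv 1 (X i))) := by
      rw [Theta, aeval_X]
      fin_cases i
      · change D F 1 (X 5) = _
        rw [D1_5]
        change _ = (aeval ![X 5, X 2, C1 F, C2 F])
          (-2 * (X 0 * pderiv 0 (X 0) + X 1 * pderiv 1 (X 0)))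
        rw [pderiv_X_self, pderiv_X_of_ne (by decide), mul_one, mul_zero, add_zero, map_mul,
          map_neg, map_ofNat, aeval_X]
        rfl
      · change D F 1 (X 2) = _
        rw [D1_2]
        change _ = (aeval ![X 5, X 2, C1 F, C2 F])
          (-2 * (X 0 * pderiv 0 (X 1) + X 1 * pderiv 1 (X 1)))
        rw [pderiv_X_self, pderiv_X_of_ne (by decide), mul_one, mul_zero, zero_add, map_mul,
          map_neg, map_ofNat, aeval_X]
        rfl
      · change D F 1 (C1 F) = _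
        rw [D_C1, pderiv_X_of_ne (by decide), pderiv_X_of_ne (by decide)]; simp
      · change D F 1 (C2 F) = _
        rw [D_C2, pderiv_X_of_ne (by decide), pderiv_X_of_ne (by decide)]; simp
    rw [h]
    simp only [Derivation.leibniz, smul_eq_mul, map_mul, map_add]
    ring

lemma coeff_X_pderiv {σ : Type*} [DecidableEq σ] (q : MvPolynomial σ F) (m : σ →₀ ℕ) (i : σ) :
    coeff m (X i * pderiv i q) = (m i : F) * coeff m q := by
  rw [coeff_X_mul']
  split_ifs with h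
  · rw [coeff_pderiv]
    have h1 : 1 ≤ m i := by
      rw [Finsupp.mem_support_iff] at h
      omega
    have h2 : m - Finsupp.single i 1 + Finsupp.single i 1 = m :=
      tsub_add_cancel_of_le (by rw [Finsupp.single_le_iff]; exact h1)
    rw [h2]
    have h3 : (((m - Finsupp.single i 1 : σ →₀ ℕ) i : ℕ) : F) + 1 = m i := by
      rw [Finsupp.tsub_apply, Finsupp.single_eq_same]
      rw [← Nat.cast_succ]
      congr 1
      omega
    rw [h3, mul_comm]
  · rw [Finsupp.mem_support_iff, not_not] at h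
    rw [h, Nat.cast_zero, zero_mul]

lemma Z_mem [CharZero F] [IsAlgClosed F] (j : ℕ) (z : R6 F) (hz : Z (2 * j) z) :
    X 1 ^ j * z ∈ A F := by
  classical
  obtain ⟨z5, z2, z1⟩ := hz
  obtain ⟨q, rfl⟩ := kernel z z5 z2
  have h2 : (2 : F) ≠ 0 := two_ne_zero
  have hq : X 0 * pderiv 0 q + X 1 * pderiv 1 q = C (2 * j : F) * q := by
    have h1 : Theta F (-2 * (X 0 * pderiv 0 q + X 1 * pderiv 1 q) - -2 * (C (2 * j : F) * q)) =
        0 := by
      rw [map_sub, ← D1_Theta, z1]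
      have h3 : Theta F (-2 * (C (2 * (j : F)) * q)) = -2 * (2 * (j : R6 F)) * Theta F q := by
        rw [map_mul, map_mul, map_neg, map_ofNat]
        have : Theta F (C (2 * (j : F))) = 2 * (j : R6 F) := by
          rw [Theta, aeval_C, map_mul, map_natCast]
          rfl
        rw [this]; ring
      rw [h3]
      push_cast
      ring
    have h4 := Theta_inj _ h1
    have h5 : (-2 : MvPolynomial (Fin 4) F) * (X 0 * pderiv 0 q + X 1 * pderiv 1 q -
        C (2 * j : F) * q) = 0 := by linear_combination h4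
    exact sub_eq_zero.1 ((mul_eq_zero.1 h5).resolve_left (neg_ne_zero.2 two_ne_zero))
  have hm : ∀ m ∈ q.support, m 0 + m 1 = 2 * j := by
    intro m hm
    have h1 := congrArg (coeff m) hq
    rw [coeff_add, coeff_X_pderiv, coeff_X_pderiv, coeff_C_mul, ← add_mul] at h1
    have h3 := mul_right_cancel₀ (mem_support_iff.1 hm) h1
    exact_mod_cast h3
  rw [q.as_sum, map_sum, Finset.mul_sum]
  apply Subalgebra.sum_mem
  intro m hmem
  have h1 : Theta F (monomial m (coeff m q)) =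
      C (coeff m q) * (X 5 ^ m 0 * X 2 ^ m 1 * (C1 F ^ m 2 * C2 F ^ m 3)) := by
    rw [Theta, aeval_monomial, Finsupp.prod_fintype _ _ (fun i => pow_zero _), Fin.prod_univ_four]
    simp only [Matrix.cons_val, Matrix.cons_val_zero, Matrix.cons_val_one, algebraMap_eq]
    ring
  rw [h1]
  have h3 : X 1 ^ j * (C (coeff m q) * (X 5 ^ m 0 * X 2 ^ m 1 * (C1 F ^ m 2 * C2 F ^ m 3))) =
      C (coeff m q) * (X 1 ^ j * (X 5 ^ m 0 * X 2 ^ m 1)) * (C1 F ^ m 2 * C2 F ^ m 3) := by ring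
  rw [h3]
  refine (A F).mul_mem ((A F).mul_mem ((A F).algebraMap_mem _) (mono_mem j _ _ (hm m hmem)))
    ((A F).mul_mem ((A F).pow_mem C1_mem _) ((A F).pow_mem C2_mem _))

lemma M_le [CharZero F] [IsAlgClosed F] : M F 0 ≤ Subalgebra.toSubmodule (A F) := by
  rw [M, Submodule.span_le]
  rintro _ ⟨j, z, hz, rfl⟩
  rw [zero_add] at hz
  exact Z_mem j z hz

lemma mem_A_of_V [CharZero F] [IsAlgClosed F] {g : R6 F} (h : V 0 g) : g ∈ A F :=
  M_le (mem_M (g.totalDegree + 1) 0 g (Or.inr (Nat.lt_succ_self _)) h)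

/-- `{εf² h, g}` -/
lemma pb_a (g : R6 F) : pb F (X 5 ^ 2 * X 1) g =
    X 5 * (2 * X 1 * D F 5 g + X 5 * (D F 1 g + 4 * ((0 : ℕ) : R6 F) * g)) := by
  rw [pow_two, pb_leibniz', pb_leibniz', pb_X, pb_X]
  push_cast
  ring

/-- `{f² h, g}` -/
lemma pb_c (g : R6 F) : pb F (X 2 ^ 2 * X 1) g =
    X 2 * (2 * X 1 * D F 2 g + X 2 * (D F 1 g + 4 * ((0 : ℕ) : R6 F) * g)) := by
  rw [pow_two, pb_leibniz', pb_leibniz', pb_X, pb_X]
  push_cast
  ring

/-- `{εf f h, g}` -/
lemma pb_b (g : R6 F) : 2 * pb F (X 5 * X 2 * X 1) g =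
    X 2 * (2 * X 1 * D F 5 g + X 5 * (D F 1 g + 4 * ((0 : ℕ) : R6 F) * g)) +
    X 5 * (2 * X 1 * D F 2 g + X 2 * (D F 1 g + 4 * ((0 : ℕ) : R6 F) * g)) := by
  rw [pb_leibniz', pb_leibniz', pb_X, pb_X, pb_X]
  push_cast
  ring

lemma V_of_comm {g : R6 F} (ha : pb F (X 5 ^ 2 * X 1) g = 0) (hc : pb F (X 2 ^ 2 * X 1) g = 0) :
    V 0 g := by
  rw [pb_a] at ha
  rw [pb_c] at hc
  exact ⟨(mul_eq_zero.1 ha).resolve_left (X_ne_zero _),
    (mul_eq_zero.1 hc).resolve_left (X_ne_zero _)⟩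

/-- every element commuting with `A` lies in `A` -/
theorem maximal [CharZero F] [IsAlgClosed F] {g : R6 F} (h : ∀ x ∈ A F, pb F x g = 0) :
    g ∈ A F := mem_A_of_V (V_of_comm (h _ a_mem) (h _ c_mem))

lemma V_mul {g g' : R6 F} (h : V 0 g) (h' : V 0 g') : V 0 (g * g') := by
  obtain ⟨h1, h2⟩ := h
  obtain ⟨h1', h2'⟩ := h'
  push_cast at h1 h2 h1' h2'
  refine ⟨?_, ?_⟩
  · rw [D_mul, D_mul]
    push_cast
    linear_combination g' * h1 + g * h1'
  · rw [D_mul, D_mul]
    push_cast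
    linear_combination g' * h2 + g * h2'

lemma V_alg (c : F) : V 0 (algebraMap F (R6 F) c) := by
  have : algebraMap F (R6 F) c = C c := rfl
  rw [this]
  refine ⟨?_, ?_⟩
  · rw [D_C, D_C]; push_cast; ring
  · rw [D_C, D_C]; push_cast; ring

lemma V_gens {g : R6 F} (hg : g ∈ gens F) : V 0 g := by
  rcases hg with rfl | rfl | rfl | rfl | rfl
  · refine ⟨?_, ?_⟩
    · rw [D_C1, D_C1]; push_cast; ring
    · rw [D_C1, D_C1]; push_cast; ring
  · refine ⟨?_, ?_⟩
    · rw [D_C2, D_C2]; push_cast; ring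
    · rw [D_C2, D_C2]; push_cast; ring
  · refine ⟨?_, ?_⟩
    · rw [pow_two, D_mul, D_mul, D_mul, D_mul, D5_1, D5_5, D1_1, D1_5]; push_cast; ring
    · rw [pow_two, D_mul, D_mul, D_mul, D_mul, D2_1, D2_5, D1_1, D1_5]; push_cast; ring
  · refine ⟨?_, ?_⟩
    · rw [D_mul, D_mul, D_mul, D_mul, D5_1, D5_5, D5_2, D1_1, D1_5, D1_2]; push_cast; ring
    · rw [D_mul, D_mul, D_mul, D_mul, D2_1, D2_5, D2_2, D1_1, D1_5, D1_2]; push_cast; ring
  · refine ⟨?_, ?_⟩
    · rw [pow_two, D_mul, D_mul, D_mul, D_mul, D5_1, D5_2, D1_1, D1_2]; push_cast; ring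
    · rw [pow_two, D_mul, D_mul, D_mul, D_mul, D2_1, D2_2, D1_1, D1_2]; push_cast; ring

lemma V_of_mem {g : R6 F} (hg : g ∈ A F) : V 0 g := by
  induction hg using Algebra.adjoin_induction with
  | mem x hx => exact V_gens hx
  | algebraMap c => exact V_alg c
  | add x y _ _ hx hy => exact hx.add hy
  | mul x y _ _ hx hy => exact V_mul hx hy

lemma pb_alg (c : F) (g : R6 F) : pb F (algebraMap F (R6 F) c) g = 0 := by
  rw [pb_skew, pb_apply, neg_eq_zero]
  apply Finset.sum_eq_zero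
  intro i _
  have : algebraMap F (R6 F) c = C c := rfl
  rw [this, D_C, mul_zero]

/-- `A` is commutative for the bracket -/
theorem commutative [CharZero F] : ∀ x ∈ A F, ∀ y ∈ A F, pb F x y = 0 := by
  intro x hx y hy
  obtain ⟨h1, h2⟩ := V_of_mem hy
  induction hx using Algebra.adjoin_induction with
  | mem x hx =>
    rcases hx with rfl | rfl | rfl | rfl | rfl
    · rw [pb_skew, pb_C1, neg_zero]
    · rw [pb_skew, pb_C2, neg_zero]
    · rw [pb_a, h1, mul_zero]
    · have h3 := pb_b y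
      rw [h1, h2, mul_zero, mul_zero, add_zero] at h3
      exact (mul_eq_zero.1 h3).resolve_left two_ne_zero
    · rw [pb_c, h2, mul_zero]
  | algebraMap c => exact pb_alg c y
  | add x x' _ _ hx hx' => rw [map_add, LinearMap.add_apply, hx, hx', add_zero]
  | mul x x' _ _ hx hx' => rw [pb_leibniz', hx, hx', mul_zero, zero_mul, add_zero]

end Pool.Agent.H307R3.PC.Core
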