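import Pool.Agent.H307R3.PC.Index

/-!
# The codim-3 property
-/

set_option autoImplicit false

namespace Pool.Agent.H307R3.PC.G

open Module MvPolynomial

variable {F : Type*} [Field F]

/-- the variable `X i`, or `0` for the first `k` of the indices `3, 4, 5` -/
noncomputable def vr (F : Type*) [Field F] (k : ℕ) (i : Fin 6) : MvPolynomial (Fin 6) F :=
  if 3 ≤ (i : ℕ) ∧ (i : ℕ) < 3 + k then 0 else X i

/-- the specialisation of the symmetric algebra -/
noncomputable def phi (F : Type*) [Field F] (k : ℕ) :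
    SymmetricAlgebra F (G F) →ₐ[F] MvPolynomial (Fin 6) F :=
  SymmetricAlgebra.lift ((bas (F := F)).constr F (vr F k))

lemma phi_bas (k : ℕ) (i : Fin 6) : phi F k (SymmetricAlgebra.ι F (G F) (bas i)) = vr F k i := by
  rw [phi, SymmetricAlgebra.lift_ι_apply, Basis.constr_basis]

lemma hom_ext {A : Type*} [CommRing A] [Algebra F A] {f g : SymmetricAlgebra F (G F) →ₐ[F] A}
    (h : ∀ i, f (SymmetricAlgebra.ι F (G F) (bas i)) = g (SymmetricAlgebra.ι F (G F) (bas i))) :
    f = g := by
  apply SymmetricAlgebra.algHom_ext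
  apply (bas (F := F)).ext
  intro i
  exact h i

lemma phi_succ (k : ℕ) : phi F (k + 1) = (aeval (vr F (k + 1))).comp (phi F k) := by
  apply hom_ext
  intro i
  rw [AlgHom.comp_apply, phi_bas, phi_bas]
  by_cases h : 3 ≤ (i : ℕ) ∧ (i : ℕ) < 3 + k
  · rw [vr, vr, if_pos h, if_pos ⟨h.1, by omega⟩, map_zero]
  · conv_rhs => rw [vr, if_neg h, aeval_X]

/-- the primes of the chain -/
noncomputable def pr (F : Type*) [Field F] (k : ℕ) : Ideal (SymmetricAlgebra F (G F)) :=
  RingHom.ker (phi F k)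

instance (k : ℕ) : (pr F k).IsPrime := RingHom.ker_isPrime _

lemma pr_lt (k : ℕ) (hk : k < 3) : pr F k < pr F (k + 1) := by
  rw [SetLike.lt_iff_le_and_exists]
  constructor
  · intro x hx
    rw [pr, RingHom.mem_ker] at hx ⊢
    rw [phi_succ, AlgHom.comp_apply, hx, map_zero]
  · refine ⟨SymmetricAlgebra.ι F (G F) (bas ⟨3 + k, by omega⟩), ?_, ?_⟩
    · rw [pr, RingHom.mem_ker, phi_bas, vr, if_pos ⟨by simp, by simp⟩]
    · rw [pr, RingHom.mem_ker, phi_bas, vr, if_neg (by simp)]
      exact X_ne_zero _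

lemma height_pr : (3 : ℕ∞) ≤ (pr F 3).height := by
  have h1 := Ideal.height_add_one_le_of_lt_of_isPrime (pr_lt (F := F) 0 (by norm_num))
  have h2 := Ideal.height_add_one_le_of_lt_of_isPrime (pr_lt (F := F) 1 (by norm_num))
  have h3 := Ideal.height_add_one_le_of_lt_of_isPrime (pr_lt (F := F) 2 (by norm_num))
  simp only [zero_add, Nat.reduceAdd] at h1 h2 h3
  calc (3 : ℕ∞) = 0 + 1 + 1 + 1 := by norm_num
    _ ≤ (pr F 0).height + 1 + 1 + 1 := by gcongr; exact zero_le
    _ ≤ (pr F 1).height + 1 + 1 := by gcongr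
    _ ≤ (pr F 2).height + 1 := by gcongr
    _ ≤ (pr F 3).height := h3

variable [CharZero F]

lemma pr_le : pr F 3 ≤ vanIdeal (SymmetricAlgebra.ι F (G F)) (sing (theta (F := F))) := by
  intro x hx
  rw [pr, RingHom.mem_ker] at hx
  simp only [vanIdeal, Ideal.mem_iInf, RingHom.mem_ker]
  intro f hf
  obtain ⟨h3, h4, h5⟩ := sing_sub hf
  have h : f = (aeval fun i => f (SymmetricAlgebra.ι F (G F) (bas i))).comp (phi F 3) := by
    apply hom_ext
    intro i
    rw [AlgHom.comp_apply, phi_bas]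
    by_cases hi : 3 ≤ (i : ℕ) ∧ (i : ℕ) < 3 + 3
    · rw [vr, if_pos hi, map_zero]
      fin_cases i
      · simp at hi
      · simp at hi
      · simp at hi
      · exact h3
      · exact h4
      · exact h5
    · rw [vr, if_neg hi, aeval_X]
  rw [h, AlgHom.comp_apply, hx, map_zero]

lemma codimProp : CodimProp (theta (F := F)) (SymmetricAlgebra.ι F (G F)) 3 :=
  le_trans height_pr (Ideal.height_mono pr_le)

end Pool.Agent.H307R3.PC.G
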