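import Mathlib

/-!
# The Poisson algebra of the Takiff algebra of `sl₂` in coordinates

The variables `X 0, ..., X 5` stand for `e, h, f, εe, εh, εf`.
-/

set_option autoImplicit false

namespace Pool.Agent.H307R3.PC.Core

open MvPolynomial

variable {F : Type*} [Field F]

/-- structure constants: `cst i j = {X i, X j}` -/
noncomputable def cst (F : Type*) [Field F] : Fin 6 → Fin 6 → MvPolynomial (Fin 6) F :=
  ![![0, -2 * X 0, X 1, 0, -2 * X 3, X 4],
    ![2 * X 0, 0, -2 * X 2, 2 * X 3, 0, -2 * X 5],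
    ![-X 1, 2 * X 2, 0, -X 4, 2 * X 5, 0],
    ![0, -2 * X 3, X 4, 0, 0, 0],
    ![2 * X 3, 0, -2 * X 5, 0, 0, 0],
    ![-X 4, 2 * X 5, 0, 0, 0, 0]]

/-- the derivation `{X i, ·}` -/
noncomputable def D (F : Type*) [Field F] (i : Fin 6) :
    Derivation F (MvPolynomial (Fin 6) F) (MvPolynomial (Fin 6) F) :=
  mkDerivation F (cst F i)

@[simp] lemma D_X (i j : Fin 6) : D F i (X j) = cst F i j := mkDerivation_X _ _ _

lemma der_sum_apply {ι : Type*} (s : Finset ι)
    (d : ι → Derivation F (MvPolynomial (Fin 6) F) (MvPolynomial (Fin 6) F))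
    (g : MvPolynomial (Fin 6) F) : (∑ i ∈ s, d i) g = ∑ i ∈ s, d i g := by
  classical
  induction s using Finset.induction_on with
  | empty => simp
  | insert a s ha ih => rw [Finset.sum_insert ha, Finset.sum_insert ha, Derivation.add_apply, ih]

lemma D_eq (i : Fin 6) (g : MvPolynomial (Fin 6) F) :
    D F i g = ∑ j, cst F i j * pderiv j g := by
  have h : D F i = ∑ j, cst F i j • (pderiv j : Derivation F _ (MvPolynomial (Fin 6) F)) := by
    apply MvPolynomial.derivation_ext
    intro k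
    rw [D_X]
    simp only [der_sum_apply, Derivation.smul_apply, smul_eq_mul]
    rw [Finset.sum_eq_single k]
    · rw [pderiv_X_self, mul_one]
    · intro b _ hb
      rw [pderiv_X_of_ne (Ne.symm hb), mul_zero]
    · intro hk
      exact absurd (Finset.mem_univ k) hk
  rw [h]
  simp only [der_sum_apply, Derivation.smul_apply, smul_eq_mul]

lemma cst_skew (i j : Fin 6) : cst F i j = -cst F j i := by
  fin_cases i <;> fin_cases j <;> simp [cst]

/-- the Lie-Poisson bracket -/
noncomputable def pb (F : Type*) [Field F] :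
    MvPolynomial (Fin 6) F →ₗ[F] MvPolynomial (Fin 6) F →ₗ[F] MvPolynomial (Fin 6) F :=
  LinearMap.mk₂ F (fun f g => ∑ i, pderiv i f * D F i g)
    (fun f f' g => by simp only [map_add, add_mul, Finset.sum_add_distrib])
    (fun c f g => by simp only [Derivation.map_smul, smul_mul_assoc, Finset.smul_sum])
    (fun f g g' => by simp only [map_add, mul_add, Finset.sum_add_distrib])
    (fun c f g => by simp only [Derivation.map_smul, mul_smul_comm, Finset.smul_sum])

lemma pb_apply (f g : MvPolynomial (Fin 6) F) : pb F f g = ∑ i, pderiv i f * D F i g := rfl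

lemma pb_leibniz (a b c : MvPolynomial (Fin 6) F) :
    pb F a (b * c) = pb F a b * c + b * pb F a c := by
  simp only [pb_apply, Derivation.leibniz, smul_eq_mul, Finset.sum_mul, Finset.mul_sum,
    ← Finset.sum_add_distrib]
  apply Finset.sum_congr rfl
  intro i _
  ring

lemma pb_skew (a b : MvPolynomial (Fin 6) F) : pb F a b = -pb F b a := by
  simp only [pb_apply, D_eq, Finset.mul_sum]
  rw [Finset.sum_comm, ← Finset.sum_neg_distrib]
  apply Finset.sum_congr rfl
  intro i _
  rw [← Finset.sum_neg_distrib]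
  apply Finset.sum_congr rfl
  intro j _
  rw [cst_skew j i]
  ring

lemma pb_leibniz' (a b c : MvPolynomial (Fin 6) F) :
    pb F (a * b) c = a * pb F b c + pb F a c * b := by
  rw [pb_skew, pb_leibniz, pb_skew c a, pb_skew c b]
  ring

lemma pb_X (i : Fin 6) (g : MvPolynomial (Fin 6) F) : pb F (X i) g = D F i g := by
  rw [pb_apply, Finset.sum_eq_single i]
  · rw [pderiv_X_self, one_mul]
  · intro b _ hb
    rw [pderiv_X_of_ne (Ne.symm hb), zero_mul]
  · intro hi
    exact absurd (Finset.mem_univ i) hi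

/-! ### special elements -/

/-- first Casimir element -/
noncomputable def C1 (F : Type*) [Field F] : MvPolynomial (Fin 6) F := X 4 ^ 2 + 4 * (X 3 * X 5)

/-- second Casimir element -/
noncomputable def C2 (F : Type*) [Field F] : MvPolynomial (Fin 6) F :=
  X 1 * X 4 + 2 * (X 0 * X 5 + X 2 * X 3)

lemma D1_0 : D F 1 (X 0) = 2 * X 0 := by simp [cst]
lemma D1_1 : D F 1 (X 1) = 0 := by simp [cst]
lemma D1_2 : D F 1 (X 2) = -2 * X 2 := by simp [cst]
lemma D1_3 : D F 1 (X 3) = 2 * X 3 := by simp [cst]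
lemma D1_4 : D F 1 (X 4) = 0 := by simp [cst]
lemma D1_5 : D F 1 (X 5) = -2 * X 5 := by simp [cst]
lemma D2_0 : D F 2 (X 0) = -X 1 := by simp [cst]
lemma D2_1 : D F 2 (X 1) = 2 * X 2 := by simp [cst]
lemma D2_2 : D F 2 (X 2) = 0 := by simp [cst]
lemma D2_3 : D F 2 (X 3) = -X 4 := by simp [cst]
lemma D2_4 : D F 2 (X 4) = 2 * X 5 := by simp [cst]
lemma D2_5 : D F 2 (X 5) = 0 := by simp [cst]
lemma D5_0 : D F 5 (X 0) = -X 4 := by simp [cst]
lemma D5_1 : D F 5 (X 1) = 2 * X 5 := by simp [cst]
lemma D5_2 : D F 5 (X 2) = 0 := by simp [cst]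
lemma D5_3 : D F 5 (X 3) = 0 := by simp [cst]
lemma D5_4 : D F 5 (X 4) = 0 := by simp [cst]
lemma D5_5 : D F 5 (X 5) = 0 := by simp [cst]

lemma D_two (i : Fin 6) (g : MvPolynomial (Fin 6) F) : D F i (2 * g) = 2 * D F i g := by
  have h : (2 : MvPolynomial (Fin 6) F) * g = (2 : F) • g := by
    rw [smul_eq_C_mul]; rfl
  have h' : (2 : MvPolynomial (Fin 6) F) * D F i g = (2 : F) • D F i g := by
    rw [smul_eq_C_mul]; rfl
  rw [h, h', Derivation.map_smul]

lemma D_neg2 (i : Fin 6) (g : MvPolynomial (Fin 6) F) : D F i (-2 * g) = -2 * D F i g := by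
  rw [neg_mul, map_neg, D_two, neg_mul]

lemma C_neg2 : (C (-2 : F) : MvPolynomial (Fin 6) F) = -2 := by
  rw [map_neg]; rfl

lemma D_four (i : Fin 6) (g : MvPolynomial (Fin 6) F) : D F i (4 * g) = 4 * D F i g := by
  have h : (4 : MvPolynomial (Fin 6) F) * g = 2 * (2 * g) := by ring
  rw [h, D_two, D_two]
  ring

lemma D_mul (i : Fin 6) (f g : MvPolynomial (Fin 6) F) :
    D F i (f * g) = f * D F i g + g * D F i f := by
  rw [Derivation.leibniz, smul_eq_mul, smul_eq_mul]

lemma D_C1 (i : Fin 6) : D F i (C1 F) = 0 := by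
  rw [C1, map_add, D_four, pow_two, D_mul, D_mul, D_X, D_X, D_X]
  fin_cases i <;> simp only [cst, Matrix.cons_val, Fin.zero_eta, Fin.mk_one, Fin.reduceFinMk] <;>
    ring

lemma D_C2 (i : Fin 6) : D F i (C2 F) = 0 := by
  rw [C2, map_add, D_two, map_add, D_mul, D_mul, D_mul, D_X, D_X, D_X, D_X, D_X, D_X]
  fin_cases i <;> simp only [cst, Matrix.cons_val, Fin.zero_eta, Fin.mk_one, Fin.reduceFinMk] <;>
    ring

lemma pb_C1 (g : MvPolynomial (Fin 6) F) : pb F g (C1 F) = 0 := by
  rw [pb_apply]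
  exact Finset.sum_eq_zero fun i _ => by rw [D_C1, mul_zero]

lemma pb_C2 (g : MvPolynomial (Fin 6) F) : pb F g (C2 F) = 0 := by
  rw [pb_apply]
  exact Finset.sum_eq_zero fun i _ => by rw [D_C2, mul_zero]

/-- commutation with the grading derivation -/
lemma comm15 (g : MvPolynomial (Fin 6) F) :
    D F 1 (D F 5 g) = D F 5 (D F 1 g) - 2 * D F 5 g := by
  have h : ⁅D F 1, D F 5⁆ = (-2 : F) • D F 5 := by
    apply MvPolynomial.derivation_ext
    intro k
    rw [Derivation.commutator_apply, Derivation.smul_apply, smul_eq_C_mul, C_neg2]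
    fin_cases k <;> simp only [cst, Matrix.cons_val, Fin.zero_eta, Fin.mk_one, Fin.reduceFinMk,
      D_X, D_two, D_neg2, map_neg, map_zero] <;> ring
  have h' := congrArg (fun d => d g) h
  simp only [Derivation.commutator_apply, Derivation.smul_apply] at h'
  rw [smul_eq_C_mul, C_neg2] at h'
  linear_combination h'

lemma comm12 (g : MvPolynomial (Fin 6) F) :
    D F 1 (D F 2 g) = D F 2 (D F 1 g) - 2 * D F 2 g := by
  have h : ⁅D F 1, D F 2⁆ = (-2 : F) • D F 2 := by
    apply MvPolynomial.derivation_ext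
    intro k
    rw [Derivation.commutator_apply, Derivation.smul_apply, smul_eq_C_mul, C_neg2]
    fin_cases k <;> simp only [cst, Matrix.cons_val, Fin.zero_eta, Fin.mk_one, Fin.reduceFinMk,
      D_X, D_two, D_neg2, map_neg, map_zero] <;> ring
  have h' := congrArg (fun d => d g) h
  simp only [Derivation.commutator_apply, Derivation.smul_apply] at h'
  rw [smul_eq_C_mul, C_neg2] at h'
  linear_combination h'

end Pool.Agent.H307R3.PC.Core
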