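import Mathlib

/-!
# Contractions of semisimple Lie algebras and Poisson-commutative subalgebras

General definitions: the contraction `g₀ ⋉ g₁` attached to an involution, its index, the
codimension of the set of singular elements of the dual, the Lie-Poisson bracket and commutative
subalgebras of the symmetric algebra.
-/

set_option autoImplicit false

namespace Pool.Agent.H307R3.PC

open Module

section Contraction

variable {F g : Type*} [Field F] [LieRing g] [LieAlgebra F g]

/-- The component of `x` in the `(+1)`-eigenspace `g₀` of the involution `θ`. -/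
noncomputable def pr0 (θ : g →ₗ⁅F⁆ g) (x : g) : g := (2⁻¹ : F) • (x + θ x)

/-- The component of `x` in the `(-1)`-eigenspace `g₁` of the involution `θ`. -/
noncomputable def pr1 (θ : g →ₗ⁅F⁆ g) (x : g) : g := (2⁻¹ : F) • (x - θ x)

/-- The bracket of the contraction `g₀ ⋉ g₁` on the vector space `g`: the bracket of `g`, except
that the bracket of two elements of `g₁` is zero. -/
noncomputable def cbr (θ : g →ₗ⁅F⁆ g) (x y : g) : g :=
  ⁅pr0 θ x, pr0 θ y⁆ + ⁅pr0 θ x, pr1 θ y⁆ + ⁅pr1 θ x, pr0 θ y⁆

/-- The stabiliser of `ξ` in the contraction (coadjoint action). -/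
noncomputable def stab (θ : g →ₗ⁅F⁆ g) (ξ : Dual F g) : Submodule F g where
  carrier := {x | ∀ y, ξ (cbr θ x y) = 0}
  add_mem' := by
    intro a b ha hb y
    have h : cbr θ (a + b) y = cbr θ a y + cbr θ b y := by
      simp only [cbr, pr0, pr1, map_add, smul_add, smul_sub, add_lie, sub_lie]
      abel
    rw [h, map_add, ha y, hb y, add_zero]
  zero_mem' := by
    intro y
    simp [cbr, pr0, pr1]
  smul_mem' := by
    intro c a ha y
    have h : cbr θ (c • a) y = c • cbr θ a y := by
      simp only [cbr, pr0, pr1, map_smul, smul_add, smul_sub, add_lie, sub_lie, smul_lie,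
        smul_comm c]
    rw [h, map_smul, ha y, smul_zero]

/-- The index of the contraction: the minimal dimension of a stabiliser. -/
noncomputable def index (θ : g →ₗ⁅F⁆ g) : ℕ := sInf (Set.range fun ξ => finrank F (stab θ ξ))

/-- The set of singular elements of the dual of the contraction. -/
def sing (θ : g →ₗ⁅F⁆ g) : Set (Dual F g) := {ξ | index θ < finrank F (stab θ ξ)}

end Contraction

section Symmetric

variable {F g S : Type*} [Field F] [LieRing g] [LieAlgebra F g] [CommRing S] [Algebra F S]

/-- Here `ι : g → S` is (the canonical map to) a symmetric algebra of `g`. An `F`-algebra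
homomorphism `f : S → F` is the evaluation at the point `f ∘ ι` of the dual of `g`; `vanIdeal ι Z`
is the ideal of all elements of `S` that vanish on the subset `Z` of the dual. -/
noncomputable def vanIdeal (ι : g →ₗ[F] S) (Z : Set (Dual F g)) : Ideal S :=
  ⨅ f : S →ₐ[F] F, ⨅ _ : f.toLinearMap ∘ₗ ι ∈ Z, RingHom.ker f

/-- The contraction has the codim-`n` property: the Zariski closed set of singular elements has
codimension at least `n` in the dual, i.e. its ideal has height at least `n`. -/
def CodimProp (θ : g →ₗ⁅F⁆ g) (ι : g →ₗ[F] S) (n : ℕ) : Prop :=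
  (n : ℕ∞) ≤ (vanIdeal ι (sing θ)).height

/-- `P` is the Lie-Poisson bracket on the symmetric algebra of the contraction: the bilinear,
skew-symmetric biderivation that extends the bracket. -/
structure IsLiePoisson (θ : g →ₗ⁅F⁆ g) (ι : g →ₗ[F] S) (P : S → S → S) : Prop where
  gen : ∀ x y : g, P (ι x) (ι y) = ι (cbr θ x y)
  add : ∀ a b c, P (a + b) c = P a c + P b c
  smul : ∀ (t : F) (a b : S), P (t • a) b = t • P a b
  skew : ∀ a b, P a b = -P b a
  leibniz : ∀ a b c, P a (b * c) = P a b * c + b * P a c

/-- The subalgebra `A` is commutative for the bracket `P`. -/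
def Comm (P : S → S → S) (A : Subalgebra F S) : Prop := ∀ a ∈ A, ∀ b ∈ A, P a b = 0

/-- The subalgebra `A` is maximal commutative for the bracket `P`. -/
def MaxComm (P : S → S → S) (A : Subalgebra F S) : Prop :=
  Comm P A ∧ ∀ B : Subalgebra F S, A ≤ B → Comm P B → B = A

/-- The subalgebra `A` is polynomial: it is generated by algebraically independent elements. -/
def IsPolynomial (A : Subalgebra F S) : Prop :=
  ∃ s : Set S, AlgebraicIndependent F ((↑) : s → S) ∧ Algebra.adjoin F s = A

/-- `A` has maximal dimension: its transcendence degree is `(dim k + ind k) / 2`, where `k` is the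
contraction of `g` for `θ`. -/
def MaxDim (θ : g →ₗ⁅F⁆ g) (A : Subalgebra F S) : Prop :=
  2 * Algebra.trdeg F A = ((finrank F g + index θ : ℕ) : Cardinal)

/-- For the Lie-Poisson bracket of the contraction, every maximal commutative subalgebra of maximal
dimension of the symmetric algebra is polynomial. -/
def AllPolynomial (θ : g →ₗ⁅F⁆ g) (ι : g →ₗ[F] S) : Prop :=
  ∀ P : S → S → S, IsLiePoisson θ ι P → ∀ A : Subalgebra F S, MaxComm P A → MaxDim θ A →
    IsPolynomial A

end Symmetric

end Pool.Agent.H307R3.PC
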