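import Pool.Agent.H307R3.PC.LieG

/-!
# Index and codim-3 property of the contraction of `sl₂ ⊕ sl₂`
-/

set_option autoImplicit false

namespace Pool.Agent.H307R3.PC.G

open Module

variable {F : Type*} [Field F]

/-- the basis -/
noncomputable def bas : Basis (Fin 6) F (G F) := Pi.basisFun F (Fin 6)

lemma expand (x : G F) : x = ∑ i, x i • bas i := by
  have h := (bas (F := F)).sum_repr x
  conv_lhs => rw [← h]
  rfl

lemma dual_apply (ξ : Dual F (G F)) (x : G F) :
    ξ x = x 0 * ξ (bas 0) + x 1 * ξ (bas 1) + x 2 * ξ (bas 2) + x 3 * ξ (bas 3) +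
      x 4 * ξ (bas 4) + x 5 * ξ (bas 5) := by
  conv_lhs => rw [expand x]
  rw [map_sum, Fin.sum_univ_six]
  simp only [map_smul, smul_eq_mul]

lemma finrank_G : finrank F (G F) = 6 := by
  have h := Module.finrank_eq_card_basis (bas (F := F))
  simpa using h

variable [CharZero F]

lemma mem_stab (ξ : Dual F (G F)) (x : G F) :
    x ∈ stab theta ξ ↔ ∀ y, ξ (br 0 x y) = 0 := by
  have h : ∀ y, cbr theta x y = br 0 x y := cbr_eq x
  constructor
  · intro hx y
    rw [← h]
    exact hx y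
  · intro hx y
    rw [h]
    exact hx y

/-- singular case -/
lemma three_le (ξ : Dual F (G F)) (h3 : ξ (bas 3) = 0) (h4 : ξ (bas 4) = 0)
    (h5 : ξ (bas 5) = 0) : 3 ≤ finrank F (stab theta ξ) := by
  let f : (Fin 3 → F) →ₗ[F] G F :=
    { toFun := fun c => mk6 0 0 0 (c 0) (c 1) (c 2)
      map_add' := fun c d => by
        ext i; revert i; apply forall6 <;> simp
      map_smul' := fun c d => by
        ext i; revert i; apply forall6 <;> simp }
  have hf : ∀ c, f c ∈ stab theta ξ := by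
    intro c
    rw [mem_stab]
    intro y
    have hfap : f c = mk6 0 0 0 (c 0) (c 1) (c 2) := rfl
    rw [dual_apply, h3, h4, h5, hfap]
    simp only [br0, br1, br2, mk6_0, mk6_1, mk6_2, mk6_3, mk6_4, mk6_5]
    ring
  have hinj : Function.Injective (f.codRestrict (stab theta ξ) hf) := by
    intro c d hcd
    have h : f c = f d := congrArg Subtype.val hcd
    funext i
    fin_cases i
    · exact congrFun h 3
    · exact congrFun h 4
    · exact congrFun h 5
  have h := LinearMap.finrank_le_finrank_of_injective hinj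
  simpa using h

/-- regular case -/
lemma eq_two (ξ : Dual F (G F)) (h : ¬ (ξ (bas 3) = 0 ∧ ξ (bas 4) = 0 ∧ ξ (bas 5) = 0)) :
    finrank F (stab theta ξ) = 2 := by
  have h2 : (2 : F) ≠ 0 := two_ne_zero
  obtain ⟨a0, ha0⟩ : ∃ a, a = ξ (bas 0) := ⟨_, rfl⟩
  obtain ⟨a1, ha1⟩ : ∃ a, a = ξ (bas 1) := ⟨_, rfl⟩
  obtain ⟨a2, ha2⟩ : ∃ a, a = ξ (bas 2) := ⟨_, rfl⟩
  obtain ⟨a3, ha3⟩ : ∃ a, a = ξ (bas 3) := ⟨_, rfl⟩
  obtain ⟨a4, ha4⟩ : ∃ a, a = ξ (bas 4) := ⟨_, rfl⟩
  obtain ⟨a5, ha5⟩ : ∃ a, a = ξ (bas 5) := ⟨_, rfl⟩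
  rw [← ha3, ← ha4, ← ha5] at h
  have hap : ∀ x : G F, ξ x = x 0 * a0 + x 1 * a1 + x 2 * a2 + x 3 * a3 + x 4 * a4 + x 5 * a5 := by
    intro x
    rw [dual_apply, ← ha0, ← ha1, ← ha2, ← ha3, ← ha4, ← ha5]
  let f : (Fin 2 → F) →ₗ[F] G F :=
    { toFun := fun c => mk6 (c 0 * a5) (c 0 * (a4 / 2)) (c 0 * a3) (c 0 * a2 + c 1 * a5)
        (c 0 * (a1 / 2) + c 1 * (a4 / 2)) (c 0 * a0 + c 1 * a3)
      map_add' := fun c d => by
        ext i; revert i; apply forall6 <;> simp <;> ring
      map_smul' := fun c d => by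
        ext i; revert i; apply forall6 <;> simp <;> ring }
  have hfap : ∀ c, f c = mk6 (c 0 * a5) (c 0 * (a4 / 2)) (c 0 * a3) (c 0 * a2 + c 1 * a5)
        (c 0 * (a1 / 2) + c 1 * (a4 / 2)) (c 0 * a0 + c 1 * a3) := fun c => rfl
  have hf : ∀ c, f c ∈ stab theta ξ := by
    intro c
    rw [mem_stab]
    intro y
    rw [hap, hfap]
    simp only [br0, br1, br2, br3, br4, br5, mk6_0, mk6_1, mk6_2, mk6_3, mk6_4, mk6_5]
    field_simp
    ring
  have hinj : Function.Injective (f.codRestrict (stab theta ξ) hf) := by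
    rw [← LinearMap.ker_eq_bot, LinearMap.ker_eq_bot']
    intro c hc
    have hc' : f c = 0 := congrArg Subtype.val hc
    rw [hfap] at hc'
    have e0 : c 0 * a5 = 0 := congrFun hc' 0
    have e1 : c 0 * (a4 / 2) = 0 := congrFun hc' 1
    have e2 : c 0 * a3 = 0 := congrFun hc' 2
    have e3 : c 0 * a2 + c 1 * a5 = 0 := congrFun hc' 3
    have e4 : c 0 * (a1 / 2) + c 1 * (a4 / 2) = 0 := congrFun hc' 4
    have e5 : c 0 * a0 + c 1 * a3 = 0 := congrFun hc' 5
    have hc0 : c 0 = 0 := by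
      by_contra hne
      apply h
      refine ⟨(mul_eq_zero.1 e2).resolve_left hne, ?_, (mul_eq_zero.1 e0).resolve_left hne⟩
      have := (mul_eq_zero.1 e1).resolve_left hne
      exact (div_eq_zero_iff.1 this).resolve_right h2
    rw [hc0, zero_mul, zero_add] at e3 e4 e5
    have hc1 : c 1 = 0 := by
      by_contra hne
      apply h
      refine ⟨(mul_eq_zero.1 e5).resolve_left hne, ?_, (mul_eq_zero.1 e3).resolve_left hne⟩
      have := (mul_eq_zero.1 e4).resolve_left hne
      exact (div_eq_zero_iff.1 this).resolve_right h2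
    funext i
    fin_cases i
    · exact hc0
    · exact hc1
  have hsurj : Function.Surjective (f.codRestrict (stab theta ξ) hf) := by
    rintro ⟨x, hx⟩
    rw [mem_stab] at hx
    have t3 := hx (mk6 0 0 0 1 0 0)
    have t4 := hx (mk6 0 0 0 0 1 0)
    have t5 := hx (mk6 0 0 0 0 0 1)
    have t0 := hx (mk6 1 0 0 0 0 0)
    have t1 := hx (mk6 0 1 0 0 0 0)
    have t2 := hx (mk6 0 0 1 0 0 0)
    rw [hap] at t0 t1 t2 t3 t4 t5
    simp only [br0, br1, br2, br3, br4, br5, mk6_0, mk6_1, mk6_2, mk6_3, mk6_4, mk6_5]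
      at t0 t1 t2 t3 t4 t5
    suffices hs : ∃ l m : F, x 0 = l * a5 ∧ x 1 = l * (a4 / 2) ∧ x 2 = l * a3 ∧
        x 3 = l * a2 + m * a5 ∧ x 4 = l * (a1 / 2) + m * (a4 / 2) ∧ x 5 = l * a0 + m * a3 by
      obtain ⟨l, m, s0, s1, s2, s3, s4, s5⟩ := hs
      refine ⟨![l, m], Subtype.ext ?_⟩
      change f ![l, m] = x
      rw [hfap]
      ext i
      revert i
      apply forall6
      · exact s0.symm
      · exact s1.symm
      · exact s2.symm
      · exact s3.symm
      · exact s4.symm
      · exact s5.symm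
    have t3' : 2 * x 1 * a3 - x 2 * a4 = 0 := by linear_combination t3
    have t4' : -2 * x 0 * a3 + 2 * x 2 * a5 = 0 := by linear_combination t4
    have t5' : x 0 * a4 - 2 * x 1 * a5 = 0 := by linear_combination t5
    have t0' : 2 * x 1 * a0 - x 2 * a1 + 2 * x 4 * a3 - x 5 * a4 = 0 := by linear_combination t0
    have t1' : -2 * x 0 * a0 + 2 * x 2 * a2 - 2 * x 3 * a3 + 2 * x 5 * a5 = 0 := by
      linear_combination t1
    have t2' : x 0 * a1 - 2 * x 1 * a2 + x 3 * a4 - 2 * x 4 * a5 = 0 := by linear_combination t2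
    clear t0 t1 t2 t3 t4 t5
    by_cases h5 : a5 = 0
    · by_cases h3 : a3 = 0
      · have h4 : a4 ≠ 0 := fun h4 => h ⟨h3, h4, h5⟩
        have hl : 2 * x 1 / a4 * a4 = 2 * x 1 := div_mul_cancel₀ _ h4
        set l := 2 * x 1 / a4 with hldef
        have hm : (2 * x 4 - l * a1) / a4 * a4 = 2 * x 4 - l * a1 := div_mul_cancel₀ _ h4
        set m := (2 * x 4 - l * a1) / a4 with hmdef
        have u2 : x 2 = 0 := by
          apply mul_right_cancel₀ h4
          linear_combination -t3' + 2 * x 1 * h3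
        have u0 : x 0 = 0 := by
          apply mul_right_cancel₀ h4
          linear_combination t5' + 2 * x 1 * h5
        refine ⟨l, m, ?_, ?_, ?_, ?_, ?_, ?_⟩
        · rw [u0, h5]; ring
        · apply mul_left_cancel₀ h2
          linear_combination -hl
        · rw [u2, h3]; ring
        · apply mul_right_cancel₀ h4
          linear_combination t2' - a2 * hl - a1 * u0 + (2 * x 4 - m * a4) * h5
        · apply mul_left_cancel₀ h2
          linear_combination -hm
        · apply mul_right_cancel₀ h4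
          linear_combination -t0' - a0 * hl - a1 * u2 + (2 * x 4 - m * a4) * h3
      · have hl : x 2 / a3 * a3 = x 2 := div_mul_cancel₀ _ h3
        set l := x 2 / a3 with hldef
        have hm : (x 5 - l * a0) / a3 * a3 = x 5 - l * a0 := div_mul_cancel₀ _ h3
        set m := (x 5 - l * a0) / a3 with hmdef
        have h23 : 2 * a3 ≠ 0 := mul_ne_zero h2 h3
        have g0 : x 0 = l * a5 := by
          apply mul_left_cancel₀ h23
          linear_combination -t4' - 2 * a5 * hl
        have g1 : x 1 = l * (a4 / 2) := by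
          apply mul_left_cancel₀ h23
          linear_combination t3' - a4 * hl
        refine ⟨l, m, g0, g1, hl.symm, ?_, ?_, ?_⟩
        · apply mul_left_cancel₀ h23
          linear_combination -t1' - 2 * a2 * hl - 2 * a5 * hm - 2 * a0 * g0
        · apply mul_left_cancel₀ h23
          linear_combination t0' - a1 * hl - a4 * hm - 2 * a0 * g1
        · linear_combination -hm
    · have hl : x 0 / a5 * a5 = x 0 := div_mul_cancel₀ _ h5
      set l := x 0 / a5 with hldef
      have hm : (x 3 - l * a2) / a5 * a5 = x 3 - l * a2 := div_mul_cancel₀ _ h5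
      set m := (x 3 - l * a2) / a5 with hmdef
      have h25 : 2 * a5 ≠ 0 := mul_ne_zero h2 h5
      have g1 : x 1 = l * (a4 / 2) := by
        apply mul_left_cancel₀ h25
        linear_combination -t5' - a4 * hl
      have g2 : x 2 = l * a3 := by
        apply mul_left_cancel₀ h25
        linear_combination t4' - 2 * a3 * hl
      refine ⟨l, m, hl.symm, g1, g2, ?_, ?_, ?_⟩
      · linear_combination -hm
      · apply mul_left_cancel₀ h25
        linear_combination -t2' - a1 * hl - a4 * hm - 2 * a2 * g1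
      · apply mul_left_cancel₀ h25
        linear_combination t1' - 2 * a0 * hl - 2 * a3 * hm - 2 * a2 * g2
  have := (LinearEquiv.ofBijective _ ⟨hinj, hsurj⟩).finrank_eq
  rw [← this]
  simp

lemma two_le (ξ : Dual F (G F)) : 2 ≤ finrank F (stab theta ξ) := by
  by_cases h : ξ (bas 3) = 0 ∧ ξ (bas 4) = 0 ∧ ξ (bas 5) = 0
  · have := three_le ξ h.1 h.2.1 h.2.2
    omega
  · rw [eq_two ξ h]

lemma index_eq : index (theta (F := F)) = 2 := by
  unfold index
  apply le_antisymm
  · apply Nat.sInf_le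
    refine ⟨(bas (F := F)).coord 3, eq_two _ ?_⟩
    rintro ⟨h3, -, -⟩
    simp at h3
  · refine le_csInf (Set.range_nonempty _) ?_
    rintro _ ⟨ξ, rfl⟩
    exact two_le ξ

lemma sing_sub {ξ : Dual F (G F)} (h : ξ ∈ sing (theta (F := F))) :
    ξ (bas 3) = 0 ∧ ξ (bas 4) = 0 ∧ ξ (bas 5) = 0 := by
  by_contra hne
  have h1 : index (theta (F := F)) < finrank F (stab theta ξ) := h
  rw [index_eq, eq_two ξ hne] at h1
  omega

end Pool.Agent.H307R3.PC.G
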