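import Pool.Agent.H307R3.PC.Core

/-!
# The common kernel of `{f, ·}` and `{εf, ·}`
-/

set_option autoImplicit false

namespace Pool.Agent.H307R3.PC.Core

open MvPolynomial

variable {F : Type*} [Field F]

/-- the images of the variables under `Psi` -/
noncomputable def psiv (F : Type*) [Field F] : Fin 6 → MvPolynomial (Fin 6) F :=
  ![X 5, X 2, C1 F, C2 F, X 1, X 4]

/-- the substitution `Y ↦ (εf, f, C1, C2, h, εh)` -/
noncomputable def Psi (F : Type*) [Field F] : MvPolynomial (Fin 6) F →ₐ[F] MvPolynomial (Fin 6) F :=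
  aeval (psiv F)

/-- the substitution `Y ↦ (εf, f, C1, C2)` -/
noncomputable def Theta (F : Type*) [Field F] :
    MvPolynomial (Fin 4) F →ₐ[F] MvPolynomial (Fin 6) F :=
  aeval ![X 5, X 2, C1 F, C2 F]

lemma Psi_rename (q : MvPolynomial (Fin 4) F) :
    Psi F (rename (Fin.castLE (by norm_num)) q) = Theta F q := by
  rw [Psi, Theta, aeval_rename]
  congr 2
  funext i
  fin_cases i <;> rfl

lemma eval_Psi (x : Fin 6 → F) (q : MvPolynomial (Fin 6) F) :
    eval x (Psi F q) = eval ![x 5, x 2, x 4 ^ 2 + 4 * (x 3 * x 5),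
      x 1 * x 4 + 2 * (x 0 * x 5 + x 2 * x 3), x 1, x 4] q := by
  have h : ((aeval x : MvPolynomial (Fin 6) F →ₐ[F] F).comp (Psi F)) =
      aeval ![x 5, x 2, x 4 ^ 2 + 4 * (x 3 * x 5),
        x 1 * x 4 + 2 * (x 0 * x 5 + x 2 * x 3), x 1, x 4] := by
    apply MvPolynomial.algHom_ext
    intro i
    rw [AlgHom.comp_apply, Psi, aeval_X, aeval_X]
    fin_cases i <;> simp [psiv, C1, C2]
  have h' := congrArg (fun f => f q) h
  simpa [aeval_eq_eval] using h'

lemma Psi_inj [CharZero F] (q : MvPolynomial (Fin 6) F) (h : Psi F q = 0) : q = 0 := by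
  have hinf : Infinite F := inferInstance
  have h2 : (2 : F) ≠ 0 := two_ne_zero
  have key : X 0 * q = 0 := by
    apply MvPolynomial.funext
    intro y
    rw [map_mul, eval_X, map_zero]
    by_cases hy : y 0 = 0
    · rw [hy, zero_mul]
    · have h1 := eval_Psi ![((y 3 - y 4 * y 5) / 2 - y 1 * ((y 2 - y 5 ^ 2) / (4 * y 0))) / y 0,
        y 4, y 1, (y 2 - y 5 ^ 2) / (4 * y 0), y 5, y 0] q
      rw [h, map_zero] at h1
      have h3 : ![y 0, y 1, y 2, y 3, y 4, y 5] = y := by
        funext i; fin_cases i <;> rfl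
      have h4 : y 5 ^ 2 + 4 * ((y 2 - y 5 ^ 2) / (4 * y 0) * y 0) = y 2 := by
        field_simp; ring
      have h5 : y 4 * y 5 + 2 * (((y 3 - y 4 * y 5) / 2 -
          y 1 * ((y 2 - y 5 ^ 2) / (4 * y 0))) / y 0 * y 0 +
          y 1 * ((y 2 - y 5 ^ 2) / (4 * y 0))) = y 3 := by
        field_simp; ring
      simp only [Matrix.cons_val, Matrix.cons_val_zero, Matrix.cons_val_one] at h1
      rw [h4, h5, h3] at h1
      rw [← h1, mul_zero]
  exact (mul_eq_zero.1 key).resolve_left (X_ne_zero _)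

lemma Theta_inj [CharZero F] (q : MvPolynomial (Fin 4) F) (h : Theta F q = 0) : q = 0 := by
  rw [← Psi_rename] at h
  have h1 := Psi_inj _ h
  exact rename_injective _ (Fin.castLE_injective _) (by rw [h1, map_zero])

lemma D5_Psi (q : MvPolynomial (Fin 6) F) :
    D F 5 (Psi F q) = Psi F (2 * X 0 * pderiv 4 q) := by
  induction q using MvPolynomial.induction_on with
  | C a => simp [Psi]
  | add p q hp hq => rw [map_add, map_add, hp, hq, map_add, mul_add, map_add]
  | mul_X p i hp =>
    rw [map_mul, D_mul, hp, Derivation.leibniz, smul_eq_mul, smul_eq_mul, mul_add, map_add]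
    have h : D F 5 (Psi F (X i)) = Psi F (2 * X 0 * pderiv 4 (X i)) := by
      rw [Psi, aeval_X]
      fin_cases i
      · change D F 5 (X 5) = _
        rw [D5_5, pderiv_X_of_ne (by decide)]; simp
      · change D F 5 (X 2) = _
        rw [D5_2, pderiv_X_of_ne (by decide)]; simp
      · change D F 5 (C1 F) = _
        rw [D_C1, pderiv_X_of_ne (by decide)]; simp
      · change D F 5 (C2 F) = _
        rw [D_C2, pderiv_X_of_ne (by decide)]; simp
      · change D F 5 (X 1) = _
        rw [D5_1]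
        change _ = (aeval (psiv F)) (2 * X 0 * pderiv 4 (X 4))
        rw [pderiv_X_self, mul_one, map_mul, aeval_X, map_ofNat]
        rfl
      · change D F 5 (X 4) = _
        rw [D5_4, pderiv_X_of_ne (by decide)]; simp
    rw [h]
    simp only [map_mul]
    ring

lemma D2_Psi (q : MvPolynomial (Fin 6) F) :
    D F 2 (Psi F q) = Psi F (2 * X 1 * pderiv 4 q + 2 * X 0 * pderiv 5 q) := by
  induction q using MvPolynomial.induction_on with
  | C a => simp [Psi]
  | add p q hp hq =>
    rw [map_add, map_add, hp, hq, ← map_add]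
    congr 1
    simp only [map_add]
    ring
  | mul_X p i hp =>
    rw [map_mul, D_mul, hp]
    have h : D F 2 (Psi F (X i)) =
        Psi F (2 * X 1 * pderiv 4 (X i) + 2 * X 0 * pderiv 5 (X i)) := by
      rw [Psi, aeval_X]
      fin_cases i
      · change D F 2 (X 5) = _
        rw [D2_5, pderiv_X_of_ne (by decide), pderiv_X_of_ne (by decide)]; simp
      · change D F 2 (X 2) = _
        rw [D2_2, pderiv_X_of_ne (by decide), pderiv_X_of_ne (by decide)]; simp
      · change D F 2 (C1 F) = _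
        rw [D_C1, pderiv_X_of_ne (by decide), pderiv_X_of_ne (by decide)]; simp
      · change D F 2 (C2 F) = _
        rw [D_C2, pderiv_X_of_ne (by decide), pderiv_X_of_ne (by decide)]; simp
      · change D F 2 (X 1) = _
        rw [D2_1]
        change _ = (aeval (psiv F)) (2 * X 1 * pderiv 4 (X 4) + 2 * X 0 * pderiv 5 (X 4))
        rw [pderiv_X_self, pderiv_X_of_ne (by decide), mul_one, mul_zero, add_zero, map_mul,
          aeval_X, map_ofNat]
        rfl
      · change D F 2 (X 4) = _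
        rw [D2_4]
        change _ = (aeval (psiv F)) (2 * X 1 * pderiv 4 (X 5) + 2 * X 0 * pderiv 5 (X 5))
        rw [pderiv_X_self, pderiv_X_of_ne (by decide), mul_one, mul_zero, zero_add, map_mul,
          aeval_X, map_ofNat]
        rfl
    rw [h]
    simp only [Derivation.leibniz, smul_eq_mul, map_mul, map_add]
    ring

/-- after multiplication by a power of `εf`, everything is in the image of `Psi` -/
lemma exists_Psi [CharZero F] (g : MvPolynomial (Fin 6) F) :
    ∃ (N : ℕ) (q : MvPolynomial (Fin 6) F), X 5 ^ N * g = Psi F q := by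
  have h2 : (2 : F) ≠ 0 := two_ne_zero
  induction g using MvPolynomial.induction_on with
  | C a => exact ⟨0, C a, by simp [Psi]⟩
  | add p q hp hq =>
    obtain ⟨N, p', hp'⟩ := hp
    obtain ⟨M, q', hq'⟩ := hq
    refine ⟨N + M, X 0 ^ M * p' + X 0 ^ N * q', ?_⟩
    have hX : Psi F (X 0) = X 5 := by rw [Psi, aeval_X]; rfl
    rw [map_add, map_mul, map_mul, map_pow, map_pow, hX, ← hp', ← hq']
    ring
  | mul_X p i hp =>
    obtain ⟨N, p', hp'⟩ := hp
    have h : ∃ (M : ℕ) (q : MvPolynomial (Fin 6) F), X 5 ^ M * X i = Psi F q := by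
      have e0 : Psi F (X 0) = X 5 := by rw [Psi, aeval_X]; rfl
      have e1 : Psi F (X 1) = X 2 := by rw [Psi, aeval_X]; rfl
      have e2 : Psi F (X 2) = C1 F := by rw [Psi, aeval_X]; rfl
      have e3 : Psi F (X 3) = C2 F := by rw [Psi, aeval_X]; rfl
      have e4 : Psi F (X 4) = X 1 := by rw [Psi, aeval_X]; rfl
      have e5 : Psi F (X 5) = X 4 := by rw [Psi, aeval_X]; rfl
      have eC : ∀ a : F, Psi F (C a) = C a := by
        intro a; rw [Psi, aeval_C]; rfl
      have c4 : (C (4⁻¹ : F) : MvPolynomial (Fin 6) F) * 4 = 1 := by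
        have : (4 : MvPolynomial (Fin 6) F) = C 4 := rfl
        rw [this, ← C_mul, inv_mul_cancel₀ (by norm_num), C_1]
      have c2 : (C (2⁻¹ : F) : MvPolynomial (Fin 6) F) * 2 = 1 := by
        have : (2 : MvPolynomial (Fin 6) F) = C 2 := rfl
        rw [this, ← C_mul, inv_mul_cancel₀ (by norm_num), C_1]
      fin_cases i
      · refine ⟨2, C 2⁻¹ * (X 0 * (X 3 - X 4 * X 5)) - X 1 * (C 4⁻¹ * (X 2 - X 5 ^ 2)), ?_⟩
        simp only [map_sub, map_mul, map_pow, e0, e1, e2, e3, e4, e5, eC]
        change X 5 ^ 2 * X 0 = _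
        rw [C1, C2]
        linear_combination (-(X 5 * (X 0 * X 5 + X 2 * X 3))) * c2 + (X 2 * X 3 * X 5) * c4
      · exact ⟨0, X 4, by rw [e4, pow_zero, one_mul]; rfl⟩
      · exact ⟨0, X 1, by rw [e1, pow_zero, one_mul]; rfl⟩
      · refine ⟨1, C 4⁻¹ * (X 2 - X 5 ^ 2), ?_⟩
        simp only [map_sub, map_mul, map_pow, e0, e1, e2, e3, e4, e5, eC]
        change X 5 ^ 1 * X 3 = _
        rw [C1]
        linear_combination (-(X 3 * X 5)) * c4
      · exact ⟨0, X 5, by rw [e5, pow_zero, one_mul]; rfl⟩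
      · exact ⟨0, X 0, by rw [e0, pow_zero, one_mul]; rfl⟩
    obtain ⟨M, q, hq⟩ := h
    refine ⟨N + M, p' * q, ?_⟩
    rw [map_mul, ← hp', ← hq]
    ring

lemma notMem_vars [CharZero F] {σ : Type*} (i : σ) (q : MvPolynomial σ F) (h : pderiv i q = 0) :
    i ∉ q.vars := by
  classical
  intro hi
  rw [mem_vars] at hi
  obtain ⟨m, hm, him⟩ := hi
  have hm0 : m i ≠ 0 := Finsupp.mem_support_iff.1 him
  have h1 := coeff_pderiv (i := i) q (m - Finsupp.single i 1)
  have h2 : m - Finsupp.single i 1 + Finsupp.single i 1 = m := by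
    apply tsub_add_cancel_of_le
    rw [Finsupp.single_le_iff]
    omega
  rw [h, coeff_zero, h2] at h1
  rcases mul_eq_zero.1 h1.symm with h3 | h3
  · exact (mem_support_iff.1 hm) h3
  · have h4 : (((m - Finsupp.single i 1 : σ →₀ ℕ) i + 1 : ℕ) : F) = 0 := by
      push_cast
      exact h3
    rw [Nat.cast_eq_zero] at h4
    omega

/-- a polynomial is congruent to its specialisation modulo `X 0` -/
lemma X0_dvd (q : MvPolynomial (Fin 4) F) :
    X 0 ∣ q - aeval ![0, X 1, X 2, X 3] q := by
  induction q using MvPolynomial.induction_on with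
  | C a => simp
  | add p q hp hq =>
    rw [map_add]
    have : p + q - ((aeval ![0, X 1, X 2, X 3]) p + (aeval ![0, X 1, X 2, X 3]) q) =
      (p - aeval ![0, X 1, X 2, X 3] p) + (q - aeval ![0, X 1, X 2, X 3] q) := by ring
    rw [this]
    exact dvd_add hp hq
  | mul_X p i hp =>
    rw [map_mul, aeval_X]
    have h : X 0 ∣ (X i : MvPolynomial (Fin 4) F) - ![0, X 1, X 2, X 3] i := by
      fin_cases i <;> simp
    have : p * X i - (aeval ![0, X 1, X 2, X 3]) p * ![0, X 1, X 2, X 3] i =
      (p - aeval ![0, X 1, X 2, X 3] p) * ![0, X 1, X 2, X 3] i +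
        p * (X i - ![0, X 1, X 2, X 3] i) := by ring
    rw [this]
    exact dvd_add (Dvd.dvd.mul_right hp _) (Dvd.dvd.mul_left h _)

lemma eval_Theta (x : Fin 6 → F) (q : MvPolynomial (Fin 4) F) :
    eval x (Theta F q) = eval ![x 5, x 2, x 4 ^ 2 + 4 * (x 3 * x 5),
      x 1 * x 4 + 2 * (x 0 * x 5 + x 2 * x 3)] q := by
  have h : ((aeval x : MvPolynomial (Fin 6) F →ₐ[F] F).comp (Theta F)) =
      aeval ![x 5, x 2, x 4 ^ 2 + 4 * (x 3 * x 5),
        x 1 * x 4 + 2 * (x 0 * x 5 + x 2 * x 3)] := by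
    apply MvPolynomial.algHom_ext
    intro i
    rw [AlgHom.comp_apply, Theta, aeval_X, aeval_X]
    fin_cases i <;> simp [C1, C2]
  have h' := congrArg (fun f => f q) h
  simpa [aeval_eq_eval] using h'

/-- saturation: here the field is algebraically closed -/
lemma saturated [CharZero F] [IsAlgClosed F] (g : MvPolynomial (Fin 6) F)
    (q : MvPolynomial (Fin 4) F) (h : X 5 * g = Theta F q) :
    ∃ q', g = Theta F q' := by
  have h2 : (2 : F) ≠ 0 := two_ne_zero
  have key : X 1 * (aeval ![0, X 1, X 2, X 3] q : MvPolynomial (Fin 4) F) = 0 := by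
    apply MvPolynomial.funext
    intro y
    rw [map_mul, eval_X, map_zero]
    by_cases hy : y 1 = 0
    · rw [hy, zero_mul]
    · obtain ⟨r, hr⟩ := IsAlgClosed.exists_pow_nat_eq (y 2) (n := 2) (by norm_num)
      have h1 := eval_Theta ![0, 0, y 1, y 3 / (2 * y 1), r, 0] q
      rw [← h] at h1
      simp only [map_mul, eval_X, Matrix.cons_val, Matrix.cons_val_zero, Matrix.cons_val_one] at h1
      rw [zero_mul] at h1
      have h3 : r ^ 2 + 4 * (y 3 / (2 * y 1) * 0) = y 2 := by rw [mul_zero, mul_zero, add_zero, hr]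
      have h4 : 0 * r + 2 * (0 * 0 + y 1 * (y 3 / (2 * y 1))) = y 3 := by
        field_simp; ring
      rw [h3, h4] at h1
      have h5 : eval y (aeval ![0, X 1, X 2, X 3] q) = eval ![0, y 1, y 2, y 3] q := by
        have h6 : ((aeval y : MvPolynomial (Fin 4) F →ₐ[F] F).comp
            (aeval ![0, X 1, X 2, X 3] : MvPolynomial (Fin 4) F →ₐ[F] MvPolynomial (Fin 4) F)) =
            aeval ![0, y 1, y 2, y 3] := by
          apply MvPolynomial.algHom_ext
          intro i
          rw [AlgHom.comp_apply, aeval_X, aeval_X]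
          fin_cases i <;> simp
        have h' := congrArg (fun f => f q) h6
        simpa [aeval_eq_eval] using h'
      rw [h5, ← h1, mul_zero]
  have h0 : (aeval ![0, X 1, X 2, X 3] q : MvPolynomial (Fin 4) F) = 0 :=
    (mul_eq_zero.1 key).resolve_left (X_ne_zero _)
  have h1 := X0_dvd q
  rw [h0, sub_zero] at h1
  obtain ⟨q', rfl⟩ := h1
  refine ⟨q', ?_⟩
  rw [map_mul] at h
  have h3 : Theta F (X 0) = X 5 := by rw [Theta, aeval_X]; rfl
  rw [h3] at h
  exact mul_left_cancel₀ (X_ne_zero _) h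

/-- the common kernel of `{f, ·}` and `{εf, ·}` -/
theorem kernel [CharZero F] [IsAlgClosed F] (g : MvPolynomial (Fin 6) F) (h5 : D F 5 g = 0)
    (h2 : D F 2 g = 0) : ∃ q, g = Theta F q := by
  obtain ⟨N, q, hq⟩ := exists_Psi g
  have hne : (2 : MvPolynomial (Fin 6) F) ≠ 0 := two_ne_zero
  have hpow5 : ∀ i, D F i (X 5) = 0 → D F i (X 5 ^ N) = 0 := by
    intro i hi
    rw [Derivation.leibniz_pow, hi]
    simp
  have a5 : pderiv 4 q = 0 := by
    have h := D5_Psi q
    rw [← hq, D_mul, h5, hpow5 5 D5_5, mul_zero, mul_zero, add_zero] at h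
    have h' := Psi_inj _ h.symm
    exact (mul_eq_zero.1 h').resolve_left (mul_ne_zero hne (X_ne_zero _))
  have a2 : pderiv 5 q = 0 := by
    have h := D2_Psi q
    rw [← hq, D_mul, h2, hpow5 2 D2_5, mul_zero, mul_zero, add_zero, a5, mul_zero, zero_add] at h
    have h' := Psi_inj _ h.symm
    exact (mul_eq_zero.1 h').resolve_left (mul_ne_zero hne (X_ne_zero _))
  obtain ⟨q', rfl⟩ := exists_rename_eq_of_vars_subset_range q
    (Fin.castLE (by norm_num) : Fin 4 → Fin 6) (Fin.castLE_injective _) (by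
      intro i hi
      have h4 := notMem_vars 4 q a5
      have h5' := notMem_vars 5 q a2
      rw [Finset.mem_coe] at hi
      fin_cases i
      · exact ⟨0, rfl⟩
      · exact ⟨1, rfl⟩
      · exact ⟨2, rfl⟩
      · exact ⟨3, rfl⟩
      · exact absurd hi h4
      · exact absurd hi h5')
  rw [Psi_rename] at hq
  clear a5 a2
  induction N generalizing q' with
  | zero => exact ⟨q', by rw [← hq, pow_zero, one_mul]⟩
  | succ N ih =>
    have h1 : X 5 * (X 5 ^ N * g) = Theta F q' := by rw [← hq]; ring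
    obtain ⟨q'', hq''⟩ := saturated _ _ h1
    refine ih (fun i hi => ?_) q'' hq''
    rw [Derivation.leibniz_pow, hi]
    simp

end Pool.Agent.H307R3.PC.Core
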