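import Pool.Agent.H307R3.PC.Defs

/-!
# The Lie algebra `sl₂ ⊕ sl₂` with the swap, in an adapted basis
-/

set_option autoImplicit false

namespace Pool.Agent.H307R3.PC

open Module

/-- `sl₂ ⊗ F[ε]/(ε² - 1)`, which is isomorphic to `sl₂ ⊕ sl₂`, with basis
`e, h, f, εe, εh, εf`. -/
def G (F : Type*) : Type _ := Fin 6 → F

namespace G

variable {F : Type*} [Field F]

instance : AddCommGroup (G F) := inferInstanceAs (AddCommGroup (Fin 6 → F))

instance : Module F (G F) := inferInstanceAs (Module F (Fin 6 → F))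

instance : Module.Finite F (G F) := inferInstanceAs (Module.Finite F (Fin 6 → F))

instance : Module.Free F (G F) := inferInstanceAs (Module.Free F (Fin 6 → F))

@[ext] lemma ext' {x y : G F} (h : ∀ i, x i = y i) : x = y := funext h

@[simp] lemma add_ap (x y : G F) (i : Fin 6) : (x + y) i = x i + y i := rfl
@[simp] lemma sub_ap (x y : G F) (i : Fin 6) : (x - y) i = x i - y i := rfl
@[simp] lemma neg_ap (x : G F) (i : Fin 6) : (-x) i = -x i := rfl
@[simp] lemma zero_ap (i : Fin 6) : (0 : G F) i = 0 := rfl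
@[simp] lemma smul_ap (c : F) (x : G F) (i : Fin 6) : (c • x) i = c * x i := rfl

/-- the element with given coordinates -/
def mk6 (a0 a1 a2 a3 a4 a5 : F) : G F := ![a0, a1, a2, a3, a4, a5]

omit [Field F] in
@[simp] lemma mk6_0 (a0 a1 a2 a3 a4 a5 : F) : mk6 a0 a1 a2 a3 a4 a5 0 = a0 := rfl
omit [Field F] in
@[simp] lemma mk6_1 (a0 a1 a2 a3 a4 a5 : F) : mk6 a0 a1 a2 a3 a4 a5 1 = a1 := rfl
omit [Field F] in
@[simp] lemma mk6_2 (a0 a1 a2 a3 a4 a5 : F) : mk6 a0 a1 a2 a3 a4 a5 2 = a2 := rfl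
omit [Field F] in
@[simp] lemma mk6_3 (a0 a1 a2 a3 a4 a5 : F) : mk6 a0 a1 a2 a3 a4 a5 3 = a3 := rfl
omit [Field F] in
@[simp] lemma mk6_4 (a0 a1 a2 a3 a4 a5 : F) : mk6 a0 a1 a2 a3 a4 a5 4 = a4 := rfl
omit [Field F] in
@[simp] lemma mk6_5 (a0 a1 a2 a3 a4 a5 : F) : mk6 a0 a1 a2 a3 a4 a5 5 = a5 := rfl

/-- the bracket of `sl₂ ⊗ F[ε]/(ε² - t)` -/
def br (t : F) (x y : G F) : G F :=
  ![2 * (x 1 * y 0 - x 0 * y 1) + t * (2 * (x 4 * y 3 - x 3 * y 4)),
    (x 0 * y 2 - x 2 * y 0) + t * (x 3 * y 5 - x 5 * y 3),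
    2 * (x 2 * y 1 - x 1 * y 2) + t * (2 * (x 5 * y 4 - x 4 * y 5)),
    2 * (x 1 * y 3 - x 0 * y 4) + 2 * (x 4 * y 0 - x 3 * y 1),
    (x 0 * y 5 - x 2 * y 3) + (x 3 * y 2 - x 5 * y 0),
    2 * (x 2 * y 4 - x 1 * y 5) + 2 * (x 5 * y 1 - x 4 * y 2)]

@[simp] lemma br0 (t : F) (x y : G F) :
    br t x y 0 = 2 * (x 1 * y 0 - x 0 * y 1) + t * (2 * (x 4 * y 3 - x 3 * y 4)) := rfl
@[simp] lemma br1 (t : F) (x y : G F) :
    br t x y 1 = (x 0 * y 2 - x 2 * y 0) + t * (x 3 * y 5 - x 5 * y 3) := rfl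
@[simp] lemma br2 (t : F) (x y : G F) :
    br t x y 2 = 2 * (x 2 * y 1 - x 1 * y 2) + t * (2 * (x 5 * y 4 - x 4 * y 5)) := rfl
@[simp] lemma br3 (t : F) (x y : G F) :
    br t x y 3 = 2 * (x 1 * y 3 - x 0 * y 4) + 2 * (x 4 * y 0 - x 3 * y 1) := rfl
@[simp] lemma br4 (t : F) (x y : G F) :
    br t x y 4 = (x 0 * y 5 - x 2 * y 3) + (x 3 * y 2 - x 5 * y 0) := rfl
@[simp] lemma br5 (t : F) (x y : G F) :
    br t x y 5 = 2 * (x 2 * y 4 - x 1 * y 5) + 2 * (x 5 * y 1 - x 4 * y 2) := rfl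

instance : Bracket (G F) (G F) := ⟨br 1⟩

lemma lie_def (x y : G F) : ⁅x, y⁆ = br 1 x y := rfl

lemma forall6 {p : Fin 6 → Prop} (h0 : p 0) (h1 : p 1) (h2 : p 2) (h3 : p 3) (h4 : p 4)
    (h5 : p 5) : ∀ i, p i := by
  intro i
  fin_cases i
  exacts [h0, h1, h2, h3, h4, h5]

instance : LieRing (G F) where
  add_lie x y z := by
    ext i
    revert i
    apply forall6 <;> simp only [lie_def, add_ap, br0, br1, br2, br3, br4, br5] <;> ring
  lie_add x y z := by
    ext i
    revert i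
    apply forall6 <;> simp only [lie_def, add_ap, br0, br1, br2, br3, br4, br5] <;> ring
  lie_self x := by
    ext i
    revert i
    apply forall6 <;> simp only [lie_def, zero_ap, br0, br1, br2, br3, br4, br5] <;> ring
  leibniz_lie x y z := by
    ext i
    revert i
    apply forall6 <;> simp only [lie_def, add_ap, br0, br1, br2, br3, br4, br5] <;> ring

instance : LieAlgebra F (G F) where
  lie_smul c x y := by
    ext i
    revert i
    apply forall6 <;> simp only [lie_def, smul_ap, br0, br1, br2, br3, br4, br5] <;> ring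

/-- the involution -/
def theta : G F →ₗ⁅F⁆ G F where
  toFun x := mk6 (x 0) (x 1) (x 2) (-x 3) (-x 4) (-x 5)
  map_add' x y := by
    ext i
    revert i
    apply forall6 <;> simp [add_comm]
  map_smul' c x := by
    ext i
    revert i
    apply forall6 <;> simp
  map_lie' := by
    intro x y
    ext i
    revert i
    apply forall6 <;> simp [lie_def] <;> ring

lemma theta_ap (x : G F) : theta x = mk6 (x 0) (x 1) (x 2) (-x 3) (-x 4) (-x 5) := rfl

lemma theta_theta (x : G F) : theta (theta x) = x := by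
  ext i
  revert i
  apply forall6 <;> simp [theta_ap]

variable [CharZero F]

lemma two_ne : (2 : F) ≠ 0 := two_ne_zero

lemma cbr_eq (x y : G F) : cbr theta x y = br 0 x y := by
  have h : (2 : F) ≠ 0 := two_ne_zero
  ext i
  revert i
  apply forall6 <;> simp [cbr, pr0, pr1, lie_def, theta_ap] <;> field_simp <;> ring

/-- an ideal of `G` that is abelian is zero -/
lemma hasTrivialRadical : LieAlgebra.HasTrivialRadical F (G F) := by
  rw [LieAlgebra.hasTrivialRadical_iff_no_abelian_ideals]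
  intro I hI
  rw [LieSubmodule.eq_bot_iff]
  intro p hp
  have h1 : ∀ z : G F, ⁅p, ⁅p, z⁆⁆ = 0 := by
    intro z
    have h2 : ⁅p, z⁆ ∈ I := by
      rw [← lie_skew]
      exact I.neg_mem (I.lie_mem hp)
    have h3 := hI.trivial ⟨p, hp⟩ ⟨⁅p, z⁆, h2⟩
    exact congrArg Subtype.val h3
  have h2 : (2 : F) ≠ 0 := two_ne_zero
  -- use the test vectors `e` and `f`
  have key : ∀ z : G F, ∀ i, ⁅p, ⁅p, z⁆⁆ i = 0 := fun z i => by rw [h1 z]; rfl
  have e2 := key (mk6 1 0 0 0 0 0) 2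
  have e5 := key (mk6 1 0 0 0 0 0) 5
  have f0 := key (mk6 0 0 1 0 0 0) 0
  have f3 := key (mk6 0 0 1 0 0 0) 3
  have e0 := key (mk6 1 0 0 0 0 0) 0
  have e3 := key (mk6 1 0 0 0 0 0) 3
  simp [lie_def] at e2 e5 f0 f3 e0 e3
  have a1 : p 2 + p 5 = 0 := by
    have : (p 2 + p 5) ^ 2 = 0 := by
      apply mul_left_cancel₀ h2
      linear_combination -e2 - e5
    exact pow_eq_zero_iff (two_ne_zero) |>.1 this
  have a2 : p 2 - p 5 = 0 := by
    have : (p 2 - p 5) ^ 2 = 0 := by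
      apply mul_left_cancel₀ h2
      linear_combination -e2 + e5
    exact pow_eq_zero_iff (two_ne_zero) |>.1 this
  have a3 : p 0 + p 3 = 0 := by
    have : (p 0 + p 3) ^ 2 = 0 := by
      apply mul_left_cancel₀ h2
      linear_combination -f0 - f3
    exact pow_eq_zero_iff (two_ne_zero) |>.1 this
  have a4 : p 0 - p 3 = 0 := by
    have : (p 0 - p 3) ^ 2 = 0 := by
      apply mul_left_cancel₀ h2
      linear_combination -f0 + f3
    exact pow_eq_zero_iff (two_ne_zero) |>.1 this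
  have hp2 : p 2 = 0 := mul_left_cancel₀ h2 (by linear_combination a1 + a2)
  have hp5 : p 5 = 0 := mul_left_cancel₀ h2 (by linear_combination a1 - a2)
  have hp0 : p 0 = 0 := mul_left_cancel₀ h2 (by linear_combination a3 + a4)
  have hp3 : p 3 = 0 := mul_left_cancel₀ h2 (by linear_combination a3 - a4)
  rw [hp2, hp5, hp0, hp3] at e0 e3
  have a5 : p 1 + p 4 = 0 := by
    have : (p 1 + p 4) ^ 2 = 0 := by
      apply mul_left_cancel₀ (mul_ne_zero h2 h2)
      linear_combination e0 + e3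
    exact pow_eq_zero_iff (two_ne_zero) |>.1 this
  have a6 : p 1 - p 4 = 0 := by
    have : (p 1 - p 4) ^ 2 = 0 := by
      apply mul_left_cancel₀ (mul_ne_zero h2 h2)
      linear_combination e0 - e3
    exact pow_eq_zero_iff (two_ne_zero) |>.1 this
  have hp1 : p 1 = 0 := mul_left_cancel₀ h2 (by linear_combination a5 + a6)
  have hp4 : p 4 = 0 := mul_left_cancel₀ h2 (by linear_combination a5 - a6)
  ext i
  revert i
  apply forall6 <;> simp [*]

lemma isSemisimple : LieAlgebra.IsSemisimple F (G F) := by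
  have := hasTrivialRadical (F := F)
  infer_instance

end G

end Pool.Agent.H307R3.PC
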