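import Pool.Agent.H307R3.PC.Kernel

/-!
# The centraliser of `εf² h`, `εf f h`, `f² h`
-/

set_option autoImplicit false

namespace Pool.Agent.H307R3.PC.Core

open MvPolynomial

variable {F : Type*} [Field F]

/-- the polynomial ring in six variables -/
abbrev R6 (F : Type*) [Field F] : Type _ := MvPolynomial (Fin 6) F

/-- the equations defining the centraliser, twisted by `s` -/
def V (s : ℕ) (g : R6 F) : Prop :=
  2 * X 1 * D F 5 g + X 5 * (D F 1 g + 4 * (s : R6 F) * g) = 0 ∧
    2 * X 1 * D F 2 g + X 2 * (D F 1 g + 4 * (s : R6 F) * g) = 0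

/-- elements of the kernel of weight `-2 n` -/
def Z (n : ℕ) (z : R6 F) : Prop :=
  D F 5 z = 0 ∧ D F 2 z = 0 ∧ D F 1 z = -2 * (n : R6 F) * z

lemma V.add {s : ℕ} {g g' : R6 F} (h : V s g) (h' : V s g') : V s (g + g') := by
  obtain ⟨h1, h2⟩ := h
  obtain ⟨h1', h2'⟩ := h'
  refine ⟨?_, ?_⟩
  · simp only [map_add]; linear_combination h1 + h1'
  · simp only [map_add]; linear_combination h2 + h2'

lemma D_C (i : Fin 6) (c : F) : D F i (C c) = 0 := (D F i).map_algebraMap c

lemma D_Cmul (i : Fin 6) (c : F) (g : R6 F) : D F i (C c * g) = C c * D F i g := by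
  rw [D_mul, D_C, mul_zero, add_zero]

lemma V.smul {s : ℕ} {g : R6 F} (c : F) (h : V s g) : V s (c • g) := by
  obtain ⟨h1, h2⟩ := h
  rw [smul_eq_C_mul]
  refine ⟨?_, ?_⟩
  · simp only [D_Cmul]; linear_combination C c * h1
  · simp only [D_Cmul]; linear_combination C c * h2

lemma V.zero (s : ℕ) : V s (0 : R6 F) := by
  refine ⟨?_, ?_⟩ <;> simp

lemma V.sub {s : ℕ} {g g' : R6 F} (h : V s g) (h' : V s g') : V s (g - g') := by
  have := h.add (h'.smul (-1))
  rwa [neg_one_smul, ← sub_eq_add_neg] at this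

lemma D_nat (i : Fin 6) (n : ℕ) (g : R6 F) : D F i ((n : R6 F) * g) = n * D F i g := by
  have : (n : R6 F) = C (n : F) := (map_natCast C n).symm
  rw [this, D_Cmul]

lemma D_4n (i : Fin 6) (n : ℕ) (g : R6 F) : D F i (4 * (n : R6 F) * g) = 4 * n * D F i g := by
  rw [mul_assoc, D_four, D_nat, mul_assoc]

/-- passing from `g` to `K` -/
lemma step [CharZero F] {s : ℕ} {g : R6 F} (h : V s g) :
    ∃ K : R6 F, D F 1 g + 4 * (s : R6 F) * g = -2 * X 1 * K ∧ D F 5 g = X 5 * K ∧
      D F 2 g = X 2 * K ∧ V (s + 1) K := by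
  have hne : (2 : R6 F) ≠ 0 := two_ne_zero
  obtain ⟨h1, h2⟩ := h
  have hdvd : X 1 ∣ X 5 * (D F 1 g + 4 * (s : R6 F) * g) :=
    ⟨-2 * D F 5 g, by linear_combination h1⟩
  have hX : ¬ (X 1 : R6 F) ∣ X 5 := by
    rw [MvPolynomial.X_dvd_X]
    decide
  obtain ⟨K', hK'⟩ := ((X_prime (R := F) (i := (1 : Fin 6))).dvd_or_dvd hdvd).resolve_left hX
  have hC : -2 * (C (-2⁻¹ : F) : R6 F) = 1 := by
    have h3 : (-2 : R6 F) = C (-2) := C_neg2.symm
    rw [h3, ← C_mul]
    have h4 : (-2 : F) * -2⁻¹ = 1 := by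
      have : (2 : F) ≠ 0 := two_ne_zero
      field_simp
    rw [h4, C_1]
  obtain ⟨K, hK⟩ : ∃ K, K = C (-2⁻¹) * K' := ⟨_, rfl⟩
  have e1 : D F 1 g + 4 * (s : R6 F) * g = -2 * X 1 * K := by
    rw [hK, hK']
    linear_combination (-(X 1 * K')) * hC
  have e5 : D F 5 g = X 5 * K := by
    have h3 : 2 * X 1 * (D F 5 g - X 5 * K) = 0 := by
      rw [e1] at h1
      linear_combination h1
    exact sub_eq_zero.1 ((mul_eq_zero.1 h3).resolve_left (mul_ne_zero hne (X_ne_zero _)))
  have e2 : D F 2 g = X 2 * K := by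
    have h3 : 2 * X 1 * (D F 2 g - X 2 * K) = 0 := by
      rw [e1] at h2
      linear_combination h2
    exact sub_eq_zero.1 ((mul_eq_zero.1 h3).resolve_left (mul_ne_zero hne (X_ne_zero _)))
  refine ⟨K, e1, e5, e2, ?_, ?_⟩
  · have h3 := comm15 g
    have h4 : D F 1 g = -2 * X 1 * K - 4 * (s : R6 F) * g := by linear_combination e1
    rw [h4, e5, D_mul, D1_5, map_sub, D_4n, e5, mul_assoc (-2 : R6 F), D_neg2, D_mul, D5_1] at h3
    push_cast
    linear_combination h3
  · have h3 := comm12 g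
    have h4 : D F 1 g = -2 * X 1 * K - 4 * (s : R6 F) * g := by linear_combination e1
    rw [h4, e2, D_mul, D1_2, map_sub, D_4n, e2, mul_assoc (-2 : R6 F), D_neg2, D_mul, D2_1] at h3
    push_cast
    linear_combination h3

/-- `D F 1` acts diagonally on monomials -/
lemma coeff_D1 (g : R6 F) (m : Fin 6 →₀ ℕ) :
    coeff m (D F 1 g) = (2 * (m 0 - m 2 + m 3 - m 5) : F) * coeff m g := by
  have key : ∀ i : Fin 6, coeff m (X i * pderiv i g) = (m i : F) * coeff m g := by
    intro i
    rw [coeff_X_mul']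
    split_ifs with h
    · rw [coeff_pderiv]
      have h1 : 1 ≤ m i := by
        rw [Finsupp.mem_support_iff] at h
        omega
      have h2 : m - Finsupp.single i 1 + Finsupp.single i 1 = m :=
        tsub_add_cancel_of_le (by rw [Finsupp.single_le_iff]; exact h1)
      rw [h2]
      have h3 : (((m - Finsupp.single i 1 : Fin 6 →₀ ℕ) i : ℕ) : F) + 1 = m i := by
        rw [Finsupp.tsub_apply, Finsupp.single_eq_same]
        rw [← Nat.cast_succ]
        congr 1
        omega
      rw [h3, mul_comm]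
    · rw [Finsupp.mem_support_iff, not_not] at h
      rw [h, Nat.cast_zero, zero_mul]
  have h1 : D F 1 g = 2 * (X 0 * pderiv 0 g) - 2 * (X 2 * pderiv 2 g) + 2 * (X 3 * pderiv 3 g) -
      2 * (X 5 * pderiv 5 g) := by
    rw [D_eq, Fin.sum_univ_six]
    simp only [cst, Matrix.cons_val, Matrix.cons_val_zero, Matrix.cons_val_one]
    ring
  have h2 : ∀ f : R6 F, coeff m (2 * f) = 2 * coeff m f := by
    intro f
    have : (2 : R6 F) = C 2 := rfl
    rw [this, coeff_C_mul]
  rw [h1, coeff_sub, coeff_add, coeff_sub, h2, h2, h2, h2, key, key, key, key]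
  ring

lemma totalDegree_le (g : R6 F) (s : ℕ) :
    (D F 1 g + 4 * (s : R6 F) * g).totalDegree ≤ g.totalDegree := by
  classical
  apply totalDegree_le_of_support_subset
  intro m hm
  rw [mem_support_iff] at hm ⊢
  intro h0
  apply hm
  have h1 : (4 * (s : R6 F) * g) = C (4 * (s : F)) * g := by
    rw [C_mul, map_natCast]; rfl
  rw [coeff_add, coeff_D1, h1, coeff_C_mul, h0, mul_zero, mul_zero, add_zero]

/-- the span of the `h^j z` with `z` of weight `-4 (s + j)` -/
noncomputable def M (F : Type*) [Field F] (s : ℕ) : Submodule F (R6 F) :=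
  Submodule.span F {g | ∃ (j : ℕ) (z : R6 F), Z (2 * (s + j)) z ∧ g = X 1 ^ j * z}

lemma D_pow1 (i : Fin 6) (j : ℕ) : D F i (X 1 ^ j) = (j : R6 F) * X 1 ^ (j - 1) * D F i (X 1) := by
  rw [Derivation.leibniz_pow, nsmul_eq_mul, smul_eq_mul, mul_assoc]

/-- solving the equation for `g` in terms of `K` -/
lemma solve [CharZero F] {s : ℕ} {K : R6 F} (hK : K ∈ M F (s + 1)) :
    ∃ g ∈ M F s, V s g ∧ D F 1 g + 4 * (s : R6 F) * g = -2 * X 1 * K := by
  induction hK using Submodule.span_induction with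
  | mem K h =>
    obtain ⟨j, z, hz, rfl⟩ := h
    obtain ⟨z5, z2, z1⟩ := hz
    have hj : (2 * ((j : F) + 1)) ≠ 0 := by
      have : ((j : F) + 1) ≠ 0 := by
        have := Nat.cast_ne_zero (R := F).2 (Nat.succ_ne_zero j)
        push_cast at this
        exact this
      exact mul_ne_zero two_ne_zero this
    have hc : (C (2 * ((j : F) + 1))⁻¹ : R6 F) * (2 * ((j : R6 F) + 1)) = 1 := by
      have h3 : (2 * ((j : R6 F) + 1)) = C (2 * ((j : F) + 1)) := by
        rw [C_mul, C_add, map_natCast, C_1]; rfl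
      rw [h3, ← C_mul, inv_mul_cancel₀ hj, C_1]
    set c : F := (2 * ((j : F) + 1))⁻¹ with hcdef
    have hz' : Z (2 * (s + (j + 1))) z := ⟨z5, z2, by
      rw [z1]; congr 2; push_cast; ring⟩
    have d1 : D F 1 (X 1 ^ (j + 1) * z) = -4 * ((s : R6 F) + 1 + (j : R6 F)) * (X 1 ^ (j + 1) * z) := by
      rw [D_mul, D_pow1, D1_1, z1]
      push_cast
      ring
    have d5 : D F 5 (X 1 ^ (j + 1) * z) = 2 * ((j : R6 F) + 1) * X 1 ^ j * X 5 * z := by
      rw [D_mul, D_pow1, D5_1, z5, Nat.add_sub_cancel]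
      push_cast
      ring
    have d2 : D F 2 (X 1 ^ (j + 1) * z) = 2 * ((j : R6 F) + 1) * X 1 ^ j * X 2 * z := by
      rw [D_mul, D_pow1, D2_1, z2, Nat.add_sub_cancel]
      push_cast
      ring
    refine ⟨c • (X 1 ^ (j + 1) * z), Submodule.smul_mem _ _ (Submodule.subset_span
      ⟨j + 1, z, hz', rfl⟩), V.smul c ⟨?_, ?_⟩, ?_⟩
    · rw [d1, d5]; ring
    · rw [d1, d2]; ring
    · rw [smul_eq_C_mul, D_Cmul, d1]
      linear_combination (-2 * X 1 ^ (j + 1) * z) * hc
  | zero => exact ⟨0, Submodule.zero_mem _, V.zero s, by simp⟩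
  | add K K' _ _ hK hK' =>
    obtain ⟨g, hg, hV, he⟩ := hK
    obtain ⟨g', hg', hV', he'⟩ := hK'
    refine ⟨g + g', Submodule.add_mem _ hg hg', hV.add hV', ?_⟩
    rw [map_add]
    linear_combination he + he'
  | smul c K _ hK =>
    obtain ⟨g, hg, hV, he⟩ := hK
    refine ⟨c • g, Submodule.smul_mem _ _ hg, hV.smul c, ?_⟩
    rw [smul_eq_C_mul, smul_eq_C_mul, D_Cmul]
    linear_combination C c * he

lemma mem_M [CharZero F] (n : ℕ) : ∀ (s : ℕ) (g : R6 F), g = 0 ∨ g.totalDegree < n → V s g →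
    g ∈ M F s := by
  have hne : (2 : R6 F) ≠ 0 := two_ne_zero
  induction n with
  | zero =>
    intro s g hg _
    rcases hg with rfl | hg
    · exact Submodule.zero_mem _
    · omega
  | succ n ih =>
    intro s g hg hV
    by_cases hg0 : g = 0
    · rw [hg0]; exact Submodule.zero_mem _
    have hg' : g.totalDegree < n + 1 := hg.resolve_left hg0
    obtain ⟨K, e1, e5, e2, hVK⟩ := step hV
    have hK : K ∈ M F (s + 1) := by
      apply ih (s + 1) K _ hVK
      by_cases hK0 : K = 0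
      · exact Or.inl hK0
      · right
        have h1 := totalDegree_le g s
        have h2 : -2 * X 1 * K = C (-2 : F) * (X 1 * K) := by rw [C_neg2]; ring
        have h3 : (C (-2 : F) * (X 1 * K)).totalDegree = (X 1 * K).totalDegree := by
          rw [totalDegree_mul_of_isDomain (by
            rw [Ne, C_eq_zero]; norm_num) (mul_ne_zero (X_ne_zero _) hK0), totalDegree_C, zero_add]
        rw [e1, h2, h3, totalDegree_mul_of_isDomain (X_ne_zero _) hK0, totalDegree_X] at h1
        omega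
    obtain ⟨g', hg'M, hV', he'⟩ := solve hK
    have hVd := hV.sub hV'
    have hd : D F 1 (g - g') + 4 * (s : R6 F) * (g - g') = 0 := by
      rw [map_sub]
      linear_combination e1 - he'
    have hZ : Z (2 * (s + 0)) (g - g') := by
      obtain ⟨v1, v2⟩ := hVd
      rw [hd, mul_zero, add_zero] at v1 v2
      refine ⟨(mul_eq_zero.1 v1).resolve_left (mul_ne_zero hne (X_ne_zero _)),
        (mul_eq_zero.1 v2).resolve_left (mul_ne_zero hne (X_ne_zero _)), ?_⟩
      push_cast
      linear_combination hd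
    have hmem : g - g' ∈ M F s := Submodule.subset_span ⟨0, g - g', hZ, by rw [pow_zero, one_mul]⟩
    have : g = (g - g') + g' := by ring
    rw [this]
    exact Submodule.add_mem _ hmem hg'M

end Pool.Agent.H307R3.PC.Core
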