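import Pool.Agent.H307R3.PC.Alg
import Pool.Agent.H307R3.PC.Defs

/-!
# The subalgebra is not a polynomial algebra; its transcendence degree
-/

set_option autoImplicit false

namespace Pool.Agent.H307R3.PC.Core

open MvPolynomial

variable {F : Type*} [Field F]

/-- a polynomial subalgebra is factorial -/
lemma ufd_of_isPolynomial {S : Type*} [CommRing S] [IsDomain S] [Algebra F S]
    {B : Subalgebra F S} (h : IsPolynomial B) : UniqueFactorizationMonoid B := by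
  obtain ⟨s, hs, rfl⟩ := h
  have e := hs.aevalEquiv
  rw [Subtype.range_coe] at e
  exact e.toMulEquiv.uniqueFactorizationMonoid inferInstance

/-- the divisors of `εf² h` -/
lemma dvd_a {p : R6 F} (h : p ∣ X 5 ^ 2 * X 1) :
    ∃ (u : F) (i j : ℕ), u ≠ 0 ∧ i ≤ 2 ∧ j ≤ 1 ∧ p = C u * (X 5 ^ i * X 1 ^ j) := by
  obtain ⟨p1, p2, h1, h2, rfl⟩ := exists_dvd_and_dvd_of_dvd_mul h
  obtain ⟨i, hi, hp1⟩ := (dvd_prime_pow (X_prime (R := F) (i := (5 : Fin 6))) 2).1 h1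
  rw [← pow_one (X 1)] at h2
  obtain ⟨j, hj, hp2⟩ := (dvd_prime_pow (X_prime (R := F) (i := (1 : Fin 6))) 1).1 h2
  obtain ⟨u1, hu1⟩ := hp1.symm
  obtain ⟨u2, hu2⟩ := hp2.symm
  obtain ⟨v1, hv1, hv1'⟩ := (MvPolynomial.isUnit_iff_eq_C_of_isReduced).1 u1.isUnit
  obtain ⟨v2, hv2, hv2'⟩ := (MvPolynomial.isUnit_iff_eq_C_of_isReduced).1 u2.isUnit
  refine ⟨v1 * v2, i, j, mul_ne_zero hv1.ne_zero hv2.ne_zero, hi, hj, ?_⟩
  rw [← hu1, ← hu2, hv1', hv2', C_mul]
  ring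

lemma dvd_a_mem [CharZero F] {p : R6 F} (hp : p ∈ A F) (h : p ∣ X 5 ^ 2 * X 1) :
    ∃ u : F, u ≠ 0 ∧ (p = C u ∨ p = C u * (X 5 ^ 2 * X 1)) := by
  obtain ⟨u, i, j, hu, hi, hj, rfl⟩ := dvd_a h
  have hC : (C u : R6 F) ≠ 0 := by rwa [Ne, C_eq_zero]
  have h5 : (X 5 : R6 F) ≠ 0 := X_ne_zero _
  have h1 : (X 1 : R6 F) ≠ 0 := X_ne_zero _
  have h2 : (2 : R6 F) ≠ 0 := two_ne_zero
  obtain ⟨hV, -⟩ := V_of_mem hp
  refine ⟨u, hu, ?_⟩
  interval_cases i <;> interval_cases j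
  · left; simp
  · exfalso
    rw [D_Cmul, D_Cmul, pow_zero, one_mul, pow_one, D5_1, D1_1] at hV
    push_cast at hV
    have : C u * X 1 * X 5 * 2 * 2 = (0 : R6 F) := by linear_combination hV
    exact absurd this (mul_ne_zero (mul_ne_zero (mul_ne_zero (mul_ne_zero hC h1) h5) h2) h2)
  · exfalso
    rw [D_Cmul, D_Cmul, pow_zero, mul_one, pow_one, D5_5, D1_5] at hV
    push_cast at hV
    have : C u * X 5 * X 5 * 2 = (0 : R6 F) := by linear_combination -hV
    exact absurd this (mul_ne_zero (mul_ne_zero (mul_ne_zero hC h5) h5) h2)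
  · exfalso
    rw [D_Cmul, D_Cmul, pow_one, pow_one, D_mul, D_mul, D5_5, D1_5, D5_1, D1_1] at hV
    push_cast at hV
    have : C u * X 1 * X 5 * X 5 * 2 = (0 : R6 F) := by linear_combination hV
    exact absurd this (mul_ne_zero (mul_ne_zero (mul_ne_zero (mul_ne_zero hC h1) h5) h5) h2)
  · exfalso
    rw [D_Cmul, D_Cmul, pow_zero, mul_one, pow_two, D_mul, D_mul, D5_5, D1_5] at hV
    push_cast at hV
    have : C u * X 5 * X 5 * X 5 * 2 * 2 = (0 : R6 F) := by linear_combination -hV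
    exact absurd this (mul_ne_zero (mul_ne_zero (mul_ne_zero (mul_ne_zero (mul_ne_zero hC h5) h5)
      h5) h2) h2)
  · right; rw [pow_one]

lemma not_isUnit_X : ¬ IsUnit (X 5 ^ 2 * X 1 : R6 F) := by
  intro h
  have h1 : IsUnit (X 1 : R6 F) := isUnit_of_mul_isUnit_right h
  exact (X_prime (R := F) (i := (1 : Fin 6))).not_isUnit h1

/-- `A` is not factorial -/
lemma not_ufd [CharZero F] : ¬ UniqueFactorizationMonoid (A F) := by
  intro hufd
  have h5 : (X 5 : R6 F) ≠ 0 := X_ne_zero _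
  have h1 : (X 1 : R6 F) ≠ 0 := X_ne_zero _
  have unitC : ∀ (p : A F) (u : F), u ≠ 0 → (p : R6 F) = C u → IsUnit p := by
    intro p u hu hp
    refine isUnit_iff_exists_inv.2 ⟨algebraMap F (A F) u⁻¹, ?_⟩
    apply Subtype.ext
    change (p : R6 F) * C u⁻¹ = 1
    rw [hp, ← C_mul, mul_inv_cancel₀ hu, C_1]
  have hirr : Irreducible (⟨X 5 ^ 2 * X 1, a_mem⟩ : A F) := by
    refine irreducible_iff.2 ⟨fun h => ?_, ?_⟩
    · exact not_isUnit_X (h.map (A F).val)
    · intro p q hpq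
      have hpq' : X 5 ^ 2 * X 1 = (p : R6 F) * (q : R6 F) := congrArg Subtype.val hpq
      obtain ⟨u, hu, hp | hp⟩ := dvd_a_mem p.2 ⟨(q : R6 F), hpq'⟩
      · exact Or.inl (unitC p u hu hp)
      · right
        apply unitC q u⁻¹ (inv_ne_zero hu)
        rw [hp] at hpq'
        have h2 : X 5 ^ 2 * X 1 * (C u * (q : R6 F)) = X 5 ^ 2 * X 1 * 1 := by
          rw [mul_one]
          conv_rhs => rw [hpq']
          ring
        have h3 := mul_left_cancel₀ (mul_ne_zero (pow_ne_zero _ h5) h1) h2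
        have h4 : (C u⁻¹ : R6 F) * (C u * (q : R6 F)) = C u⁻¹ := by rw [h3, mul_one]
        rw [← mul_assoc, ← C_mul, inv_mul_cancel₀ hu, C_1, one_mul] at h4
        exact h4
  have hprime := UniqueFactorizationMonoid.irreducible_iff_prime.1 hirr
  have hdvd : (⟨X 5 ^ 2 * X 1, a_mem⟩ : A F) ∣
      ⟨X 5 * X 2 * X 1, b_mem⟩ * ⟨X 5 * X 2 * X 1, b_mem⟩ := by
    refine ⟨⟨X 2 ^ 2 * X 1, c_mem⟩, ?_⟩
    apply Subtype.ext
    change (X 5 * X 2 * X 1) * (X 5 * X 2 * X 1) = X 5 ^ 2 * X 1 * (X 2 ^ 2 * X 1)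
    ring
  have h2 : (⟨X 5 ^ 2 * X 1, a_mem⟩ : A F) ∣ ⟨X 5 * X 2 * X 1, b_mem⟩ := by
    rcases hprime.dvd_or_dvd hdvd with h | h <;> exact h
  obtain ⟨z, hz⟩ := h2
  have hz' : X 5 * X 2 * X 1 = X 5 ^ 2 * X 1 * (z : R6 F) := congrArg Subtype.val hz
  have h3 : X 5 * X 1 * X 2 = X 5 * X 1 * (X 5 * (z : R6 F)) := by linear_combination hz'
  have h4 := mul_left_cancel₀ (mul_ne_zero h5 h1) h3
  have h6 : (X 5 : R6 F) ∣ X 2 := ⟨z, h4⟩
  rw [MvPolynomial.X_dvd_X] at h6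
  exact absurd h6 (by decide)

/-! ### transcendence degree -/

/-- a transcendence basis -/
noncomputable def tb (F : Type*) [Field F] : Fin 4 → A F :=
  ![⟨C1 F, C1_mem⟩, ⟨C2 F, C2_mem⟩, ⟨X 5 ^ 2 * X 1, a_mem⟩, ⟨X 2 ^ 2 * X 1, c_mem⟩]

lemma tb_indep [CharZero F] [IsAlgClosed F] : AlgebraicIndependent F (tb F) := by
  have h2 : (2 : F) ≠ 0 := two_ne_zero
  have hval : ∀ i, ((tb F i : A F) : R6 F) =
      ![C1 F, C2 F, X 5 ^ 2 * X 1, X 2 ^ 2 * X 1] i := by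
    intro i; fin_cases i <;> rfl
  have hR : AlgebraicIndependent F (![C1 F, C2 F, X 5 ^ 2 * X 1, X 2 ^ 2 * X 1] :
      Fin 4 → R6 F) := by
    rw [algebraicIndependent_iff]
    intro q hq
    have hev : ∀ x : Fin 6 → F, eval ![x 4 ^ 2 + 4 * (x 3 * x 5),
        x 1 * x 4 + 2 * (x 0 * x 5 + x 2 * x 3), x 5 ^ 2 * x 1, x 2 ^ 2 * x 1] q = 0 := by
      intro x
      have h : ((aeval x : R6 F →ₐ[F] F).comp
          (aeval ![C1 F, C2 F, X 5 ^ 2 * X 1, X 2 ^ 2 * X 1])) =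
          aeval ![x 4 ^ 2 + 4 * (x 3 * x 5),
            x 1 * x 4 + 2 * (x 0 * x 5 + x 2 * x 3), x 5 ^ 2 * x 1, x 2 ^ 2 * x 1] := by
        apply MvPolynomial.algHom_ext
        intro i
        rw [AlgHom.comp_apply, aeval_X, aeval_X]
        fin_cases i <;> simp [C1, C2]
      have h' := congrArg (fun f => f q) h
      simp only [AlgHom.comp_apply, hq, map_zero] at h'
      rw [aeval_eq_eval] at h'
      exact h'.symm
    have key : X 2 * q = 0 := by
      apply MvPolynomial.funext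
      intro y
      rw [map_mul, eval_X, map_zero]
      by_cases hy : y 2 = 0
      · rw [hy, zero_mul]
      · obtain ⟨r, hr⟩ := IsAlgClosed.exists_pow_nat_eq (y 2) (n := 2) (by norm_num)
        obtain ⟨t, ht⟩ := IsAlgClosed.exists_pow_nat_eq (y 3) (n := 2) (by norm_num)
        have hr0 : r ≠ 0 := by
          rintro rfl
          exact hy (by rw [← hr]; ring)
        have h1 := hev ![(y 1 / 2 - t * (y 0 / (4 * r))) / r, 1, t, y 0 / (4 * r), 0, r]
        simp only [Matrix.cons_val, Matrix.cons_val_zero, Matrix.cons_val_one] at h1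
        have e0 : (0 : F) ^ 2 + 4 * (y 0 / (4 * r) * r) = y 0 := by field_simp; ring
        have e1 : 1 * 0 + 2 * ((y 1 / 2 - t * (y 0 / (4 * r))) / r * r + t * (y 0 / (4 * r))) =
            y 1 := by field_simp; ring
        have h3 : ![y 0, y 1, y 2, y 3] = y := by
          funext i; fin_cases i <;> rfl
        rw [e0, e1, mul_one, mul_one, hr, ht, h3] at h1
        rw [h1, mul_zero]
    exact (mul_eq_zero.1 key).resolve_left (X_ne_zero _)
  have hcomp : (A F).val ∘ tb F = ![C1 F, C2 F, X 5 ^ 2 * X 1, X 2 ^ 2 * X 1] := by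
    funext i
    exact hval i
  rw [← hcomp] at hR
  exact hR.of_comp (A F).val

lemma tb_basis [CharZero F] [IsAlgClosed F] : IsTranscendenceBasis F (tb F) := by
  rw [tb_indep.isTranscendenceBasis_iff_isAlgebraic]
  set B := Algebra.adjoin F (Set.range (tb F)) with hB
  have hmem : ∀ i, tb F i ∈ B := fun i => Algebra.subset_adjoin ⟨i, rfl⟩
  let C : Subalgebra F (A F) := (integralClosure B (A F)).restrictScalars F
  have hC : ∀ x : A F, x ∈ C ↔ IsIntegral B x := fun x => Iff.rfl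
  have hin : ∀ i, tb F i ∈ C := fun i =>
    (hC _).2 (isIntegral_algebraMap (R := B) (x := (⟨tb F i, hmem i⟩ : B)))
  have hle : A F ≤ C.map (A F).val := by
    refine Algebra.adjoin_le ?_
    intro x hx
    rcases hx with rfl | rfl | rfl | rfl | rfl
    · exact ⟨_, hin 0, rfl⟩
    · exact ⟨_, hin 1, rfl⟩
    · exact ⟨_, hin 2, rfl⟩
    · have h2 : (⟨X 5 * X 2 * X 1, b_mem⟩ : A F) ^ 2 = tb F 2 * tb F 3 := by
        apply Subtype.ext
        change (X 5 * X 2 * X 1 : R6 F) ^ 2 = X 5 ^ 2 * X 1 * (X 2 ^ 2 * X 1)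
        ring
      have h1 : IsIntegral B ((⟨X 5 * X 2 * X 1, b_mem⟩ : A F) ^ 2) := by
        rw [h2]
        exact ((hC _).1 (hin 2)).mul ((hC _).1 (hin 3))
      exact ⟨⟨X 5 * X 2 * X 1, b_mem⟩, (hC _).2 (IsIntegral.of_pow (by norm_num) h1), rfl⟩
    · exact ⟨_, hin 3, rfl⟩
  have hint : ∀ x : A F, IsIntegral B x := by
    intro x
    obtain ⟨y, hy, hyx⟩ := hle x.2
    have : y = x := Subtype.ext hyx
    rw [← this]
    exact (hC _).1 hy
  exact ⟨fun x => (hint x).isAlgebraic⟩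

lemma trdeg_A [CharZero F] [IsAlgClosed F] : Algebra.trdeg F (A F) = 4 := by
  have h := (tb_basis (F := F)).lift_cardinalMk_eq_trdeg
  simp only [Cardinal.mk_fin, Cardinal.lift_natCast, Cardinal.lift_id'] at h
  rw [← h]
  norm_num

end Pool.Agent.H307R3.PC.Core
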